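import Mathlib
import Pool.Agent.Helper835_LTC.Defs

/-!
# PROJECT PCX (helper835, MP_d4a15d_co)

Polygonal complexes, their Cheeger constants with permutation coefficients, and bounded degree
coboundary expanders.  All definitions, and the statements `S_...` of all jobs.
-/

set_option autoImplicit false

open Finset
open scoped Classical

namespace Pool.Agent.Helper835_PCX

/-! ## Polygonal complexes -/

/-- origin of an oriented edge: `(e, true)` is `e` in its own direction, `(e, false)` is `e` reversed -/
def osrc {V E : Type} (src tgt : E → V) (a : E × Bool) : V := if a.2 then src a.1 else tgt a.1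

/-- end point of an oriented edge -/
def otgt {V E : Type} (src tgt : E → V) (a : E × Bool) : V := if a.2 then tgt a.1 else src a.1

/-- the reversed oriented edge -/
def orev {E : Type} (a : E × Bool) : E × Bool := (a.1, !a.2)

/-- a finite polygonal complex: a finite graph (vertices `V`, edges `E`, loops and multiple edges allowed) with finitely
many 2-cells (polygons) `P`; the polygon `p` is attached along the path `att p` of oriented edges.
The path is written out twice in `att_closed` and `att_red`, to include the step from its last edge to its first one. -/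
structure PolyCx where
  /-- vertices -/
  V : Type
  /-- edges -/
  E : Type
  /-- polygons -/
  P : Type
  fV : Fintype V
  fE : Fintype E
  fP : Fintype P
  src : E → V
  tgt : E → V
  att : P → List (E × Bool)
  /-- the attaching path is not empty -/
  att_ne : ∀ p, att p ≠ []
  /-- the attaching path is a closed path -/
  att_closed : ∀ p, List.IsChain (fun a c => otgt src tgt a = osrc src tgt c) (att p ++ att p)
  /-- the attaching path is cyclically reduced: no edge is followed by its own reverse -/
  att_red : ∀ p, List.IsChain (fun a c => c ≠ orev a) (att p ++ att p)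

attribute [instance] PolyCx.fV PolyCx.fE PolyCx.fP

namespace PolyCx

variable (X : PolyCx)

/-- the underlying graph is connected -/
def Connected : Prop := Nonempty X.V ∧ ∀ x y : X.V,
  Relation.ReflTransGen (fun x y => ∃ a : X.E × Bool, osrc X.src X.tgt a = x ∧ otgt X.src X.tgt a = y) x y

/-- degree of a vertex: the number of oriented edges that start at it (so that loops count twice) -/
noncomputable def deg (v : X.V) : ℕ := (univ.filter fun a : X.E × Bool => osrc X.src X.tgt a = v).card

/-- weight of an edge: the number of polygons that contain it (in one of its two directions) -/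
noncomputable def w1 (e : X.E) : ℝ := (univ.filter fun p : X.P => ∃ b : Bool, (e, b) ∈ X.att p).card

/-- `μ₁`, the distribution on the edges that descends from the uniform distribution on the polygons -/
noncomputable def mu1 (e : X.E) : ℝ := X.w1 e / ∑ e', X.w1 e'

/-- weight of a vertex: the `μ₁` mass of the edges that contain it -/
noncomputable def w0 (v : X.V) : ℝ := ∑ e ∈ univ.filter (fun e : X.E => X.src e = v ∨ X.tgt e = v), X.mu1 e

/-- `μ₀`, the distribution on the vertices that descends from `μ₁` -/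
noncomputable def mu0 (v : X.V) : ℝ := X.w0 v / ∑ v', X.w0 v'

end PolyCx

/-- normalized Hamming distance on `Sym(n)` -/
noncomputable def dh {n : ℕ} (σ τ : Equiv.Perm (Fin n)) : ℝ :=
  (univ.filter fun j => σ j ≠ τ j).card / n

namespace PolyCx

variable (X : PolyCx)

/-- coboundary of a 0-cochain -/
def d0 {n : ℕ} (β : X.V → Equiv.Perm (Fin n)) (a : X.E × Bool) : Equiv.Perm (Fin n) :=
  (β (osrc X.src X.tgt a))⁻¹ * β (otgt X.src X.tgt a)

/-- 1-cochains: functions on the oriented edges with `α (reversed a) = (α a)⁻¹` -/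
def IsC1 {n : ℕ} (α : X.E × Bool → Equiv.Perm (Fin n)) : Prop := ∀ a, α (orev a) = (α a)⁻¹

/-- coboundary of a 1-cochain, on the polygons with the orientation given by the path `att p` (for the other
orientations of the polygon this changes by a conjugation, or an inversion and a conjugation, which
do not change the distance to the identity) -/
def d1 {n : ℕ} (α : X.E × Bool → Equiv.Perm (Fin n)) (p : X.P) : Equiv.Perm (Fin n) :=
  ((X.att p).map α).prod

/-- distance of 0-cochains -/
noncomputable def dist0 {n : ℕ} (β β' : X.V → Equiv.Perm (Fin n)) : ℝ :=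
  ∑ v, X.mu0 v * dh (β v) (β' v)

/-- distance of 1-cochains: the mean over the oriented edges, with `μ₁` and both orientations of the same weight -/
noncomputable def dist1 {n : ℕ} (α α' : X.E × Bool → Equiv.Perm (Fin n)) : ℝ :=
  ∑ a : X.E × Bool, X.mu1 a.1 / 2 * dh (α a) (α' a)

/-- norm of 1-cochains -/
noncomputable def norm1 {n : ℕ} (α : X.E × Bool → Equiv.Perm (Fin n)) : ℝ :=
  X.dist1 α fun _ => 1

/-- norm of 2-cochains: the mean over the polygons -/
noncomputable def norm2 {n : ℕ} (γ : X.P → Equiv.Perm (Fin n)) : ℝ :=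
  (∑ p, dh (γ p) 1) / Fintype.card X.P

/-- distance of a 0-cochain to `B⁰`, the constants -/
noncomputable def distB0 {n : ℕ} (β : X.V → Equiv.Perm (Fin n)) : ℝ :=
  ⨅ σ : Equiv.Perm (Fin n), X.dist0 β fun _ => σ

/-- distance of a 1-cochain to `B¹`, the coboundaries of the 0-cochains -/
noncomputable def distB1 {n : ℕ} (α : X.E × Bool → Equiv.Perm (Fin n)) : ℝ :=
  ⨅ β : X.V → Equiv.Perm (Fin n), X.dist1 α (X.d0 β)

/-- the Cheeger constant `h₀` with permutation coefficients -/
noncomputable def h0 : ℝ := sInf {r : ℝ | ∃ n : ℕ, 1 ≤ n ∧ ∃ β : X.V → Equiv.Perm (Fin n),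
  (¬ ∃ σ, β = fun _ => σ) ∧ r = X.norm1 (X.d0 β) / X.distB0 β}

/-- the Cheeger constant `h₁` with permutation coefficients -/
noncomputable def h1 : ℝ := sInf {r : ℝ | ∃ n : ℕ, 1 ≤ n ∧ ∃ α : X.E × Bool → Equiv.Perm (Fin n),
  X.IsC1 α ∧ (¬ ∃ β, α = X.d0 β) ∧ r = X.norm2 (X.d1 α) / X.distB1 α}

/-- isomorphism of polygonal complexes: bijections of the vertices, of the oriented edges and of the polygons, compatible with
the reversal of edges, with the end points of edges and with the attaching paths (up to the choice of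
the starting point and the direction of the path) -/
def Iso (X Y : PolyCx) : Prop := ∃ (fv : X.V ≃ Y.V) (fe : X.E × Bool ≃ Y.E × Bool) (fp : X.P ≃ Y.P),
  (∀ a, fe (orev a) = orev (fe a)) ∧
  (∀ a, osrc Y.src Y.tgt (fe a) = fv (osrc X.src X.tgt a)) ∧
  ∀ p, (Y.att (fp p)).IsRotated ((X.att p).map fe) ∨
    (Y.att (fp p)).IsRotated (((X.att p).map fun a => orev (fe a)).reverse)

end PolyCx

/-! ## The complex of a finite group with a word -/

section Cay

variable {G : Type} [Group G] {d : ℕ}

/-- edges: `Sum.inl (g, j)` from `g` to `g * b j`, and a loop `Sum.inr g` at every vertex `g` -/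
abbrev Ed (G : Type) (d : ℕ) : Type := (G × Fin d) ⊕ G

def csrc : Ed G d → G := Sum.elim (fun p => p.1) fun g => g

def ctgt (b : Fin d → G) : Ed G d → G := Sum.elim (fun p => p.1 * b p.2) fun g => g

/-- the path from `v` with the word `w`, the loop at the end of every step included -/
def pth (b : Fin d → G) (v : G) : List (Fin d) → List (Ed G d × Bool)
  | [] => []
  | j :: w => (Sum.inl (v, j), true) :: (Sum.inr (v * b j), true) :: pth b (v * b j) w

/-- reversed path -/
def invp {E : Type} (l : List (E × Bool)) : List (E × Bool) := (l.map orev).reverse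

/-- the closed path at `v` with the word `W`, preceded by the loop at `v` -/
def Rp (b : Fin d → G) (W : List (Fin d)) (v : G) : List (Ed G d × Bool) :=
  (Sum.inr v, true) :: pth b v W

/-- attaching paths; `u g` is a word for `g` -/
def catt (b : Fin d → G) (u : G → List (Fin d)) (W : List (Fin d)) :
    (G × G × Fin d) × Fin 3 → List (Ed G d × Bool)
  | ((v, x, j), 0) => pth b v (u (v⁻¹ * x)) ++ (Sum.inl (x, j), true) ::
      (invp (pth b v (u (v⁻¹ * (x * b j)))) ++ Rp b W v)
  | ((v, _, _), 1) => Rp b W v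
  | ((v, _, _), 2) => (Sum.inr v, true) :: Rp b W v

/-- `u` gives a word for every group element -/
def Words (b : Fin d → G) (u : G → List (Fin d)) : Prop := ∀ g, ((u g).map b).prod = g

/-- the word `W` is closed, and its path goes through all edges -/
def Cover (b : Fin d → G) (W : List (Fin d)) : Prop :=
  (W.map b).prod = 1 ∧ ∀ (g : G) (j : Fin d), ∃ W1 W2, W = W1 ++ j :: W2 ∧ (W1.map b).prod = g

end Cay

/-- the attaching paths are closed paths -/
def S_CLOSED : Prop := ∀ (G : Type) [Group G] (d : ℕ) (b : Fin d → G) (u : G → List (Fin d))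
  (W : List (Fin d)), Words b u → Cover b W → ∀ p,
  List.IsChain (fun a c => otgt csrc (ctgt b) a = osrc csrc (ctgt b) c)
    (catt b u W p ++ catt b u W p)

/-- the attaching paths are cyclically reduced -/
def S_RED : Prop := ∀ (G : Type) [Group G] (d : ℕ) (b : Fin d → G) (u : G → List (Fin d))
  (W : List (Fin d)) (p : (G × G × Fin d) × Fin 3),
  List.IsChain (fun a c => c ≠ orev a) (catt b u W p ++ catt b u W p)

/-- all polygons contain all edges -/
def S_COVER : Prop := ∀ (G : Type) [Group G] (d : ℕ) (b : Fin d → G) (u : G → List (Fin d))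
  (W : List (Fin d)), 0 < d → Cover b W → ∀ p (e : Ed G d), ∃ c : Bool, (e, c) ∈ catt b u W p

/-- words exist in an expanding system -/
def S_WORDS : Prop := ∀ (G : Type) [Group G] [Fintype G] (d : ℕ) (b : Fin d → G) (lam : ℝ),
  0 < d → 0 ≤ lam → lam < 1 → Helper835_LTC.Exp1 lam b → ∃ (u : G → List (Fin d)) (W : List (Fin d)),
    Words b u ∧ Cover b W

/-- cone inequality, in the form of sums: for every 1-cochain there is a 0-cochain whose coboundary is close -/
def S_CONE : Prop := ∀ (G : Type) [Group G] [Fintype G] (d : ℕ) (b : Fin d → G)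
  (u : G → List (Fin d)) (W : List (Fin d)), 0 < d → Words b u → Cover b W →
  ∀ (n : ℕ) (α : Ed G d × Bool → Equiv.Perm (Fin n)), (∀ a, α (orev a) = (α a)⁻¹) →
  ∃ β : G → Equiv.Perm (Fin n),
    (∑ a : Ed G d × Bool, dh (α a) ((β (osrc csrc (ctgt b) a))⁻¹ * β (otgt csrc (ctgt b) a))) /
        (2 * Fintype.card (Ed G d)) ≤
      6 * ((∑ p, dh ((catt b u W p).map α).prod 1) / Fintype.card ((G × G × Fin d) × Fin 3))

/-- expansion of 0-cochains, in the form of sums -/
def S_ZERO : Prop := ∀ (G : Type) [Group G] [Fintype G] (d : ℕ) (b : Fin d → G) (lam : ℝ),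
  0 < d → 0 ≤ lam → lam < 1 → Helper835_LTC.Exp1 lam b →
  ∀ (n : ℕ) (β : G → Equiv.Perm (Fin n)), ∃ σ : Equiv.Perm (Fin n),
    (1 - lam) / 2 * ((∑ g, dh (β g) σ) / Fintype.card G) ≤
      (∑ a : Ed G d × Bool, dh ((β (osrc csrc (ctgt b) a))⁻¹ * β (otgt csrc (ctgt b) a)) 1) /
        (2 * Fintype.card (Ed G d))

/-- the distributions on the edges and on the vertices are uniform -/
def S_UNIF : Prop := ∀ (X : PolyCx) (G : Type) [Group G] [Fintype G] (d : ℕ) (b : Fin d → G)
  (fv : X.V ≃ G) (fe : X.E ≃ Ed G d), 0 < d → Nonempty X.P →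
  (∀ e, fv (X.src e) = csrc (fe e)) → (∀ e, fv (X.tgt e) = ctgt b (fe e)) →
  (∀ p e, ∃ c : Bool, (e, c) ∈ X.att p) →
  (∀ e, X.mu1 e = 1 / Fintype.card X.E) ∧ ∀ v, X.mu0 v = 1 / Fintype.card X.V

/-- the graph of a group with words for all elements is connected -/
def S_CONN : Prop := ∀ (G : Type) [Group G] (d : ℕ) (b : Fin d → G) (u : G → List (Fin d)),
  Words b u → ∀ x y : G, Relation.ReflTransGen
    (fun x y => ∃ a : Ed G d × Bool, osrc csrc (ctgt b) a = x ∧ otgt csrc (ctgt b) a = y) x y

/-- from sums to the Cheeger constant `h₁` -/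
def S_H1 : Prop := ∀ (X : PolyCx) (c : ℝ), 0 < c → Nonempty X.P →
  (∀ e, X.mu1 e = 1 / Fintype.card X.E) → (∃ e, X.src e = X.tgt e) →
  (∀ (n : ℕ) (α : X.E × Bool → Equiv.Perm (Fin n)), X.IsC1 α → ∃ β : X.V → Equiv.Perm (Fin n),
    (∑ a : X.E × Bool, dh (α a) (X.d0 β a)) / (2 * Fintype.card X.E) ≤
      c * ((∑ p, dh (X.d1 α p) 1) / Fintype.card X.P)) → 1 / c ≤ X.h1

/-- from sums to the Cheeger constant `h₀` -/
def S_H0 : Prop := ∀ (X : PolyCx) (c : ℝ), 0 < c →
  (∀ e, X.mu1 e = 1 / Fintype.card X.E) → (∀ v, X.mu0 v = 1 / Fintype.card X.V) →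
  2 ≤ Fintype.card X.V →
  (∀ (n : ℕ) (β : X.V → Equiv.Perm (Fin n)), ∃ σ : Equiv.Perm (Fin n),
    c * ((∑ v, dh (β v) σ) / Fintype.card X.V) ≤
      (∑ a : X.E × Bool, dh (X.d0 β a) 1) / (2 * Fintype.card X.E)) → c ≤ X.h0

/-- the final statement -/
def S_MAIN : Prop := ∃ (k : ℕ) (lam : ℝ), 0 < lam ∧ ∃ X : ℕ → PolyCx,
  (∀ m, (X m).Connected) ∧ (∀ m v, (X m).deg v ≤ k) ∧ (∀ m m', m ≠ m' → ¬ (X m).Iso (X m')) ∧
  ∀ m, lam ≤ (X m).h0 ∧ lam ≤ (X m).h1

end Pool.Agent.Helper835_PCX
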