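import Mathlib
import Pool.Agent.Helper835_PCX.Defs
/-!
Part of project PCX (coboundary expanders with permutation coefficients).
-/

set_option autoImplicit false

open Finset
open scoped Classical

namespace Pool.Agent.Helper835_PCX.J_ASM

open Pool.Agent.Helper835_PCX

section

variable {G : Type} [Group G] {d : ℕ}

theorem asm_ne (b : Fin d → G) (u : G → List (Fin d)) (W : List (Fin d))
    (p : (G × G × Fin d) × Fin 3) : catt b u W p ≠ [] := by
  obtain ⟨⟨v, x, j⟩, i⟩ := p
  fin_cases i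
  · show pth b v (u (v⁻¹ * x)) ++ (Sum.inl (x, j), true) ::
      (invp (pth b v (u (v⁻¹ * (x * b j)))) ++ Rp b W v) ≠ []
    simp
  · show Rp b W v ≠ []
    simp [Rp]
  · show (Sum.inr v, true) :: Rp b W v ≠ []
    simp

/-- the complex -/
def asmX [Fintype G] (b : Fin d → G) (u : G → List (Fin d)) (W : List (Fin d))
    (h1 : ∀ p, List.IsChain (fun a c => otgt csrc (ctgt b) a = osrc csrc (ctgt b) c)
      (catt b u W p ++ catt b u W p))
    (h2 : ∀ p, List.IsChain (fun a c => c ≠ orev a) (catt b u W p ++ catt b u W p)) : PolyCx where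
  V := G
  E := Ed G d
  P := (G × G × Fin d) × Fin 3
  fV := inferInstance
  fE := inferInstance
  fP := inferInstance
  src := csrc
  tgt := ctgt b
  att := catt b u W
  att_ne := asm_ne b u W
  att_closed := h1
  att_red := h2

theorem asm_deg [Fintype G] (b : Fin d → G) (v : G) :
    (univ.filter fun a : Ed G d × Bool => osrc csrc (ctgt b) a = v).card ≤ 2 * d + 2 := by
  have h : Set.InjOn (fun a : Ed G d × Bool =>
      (match a with
        | (Sum.inl (_, j), c) => Sum.inl (j, c)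
        | (Sum.inr _, c) => Sum.inr c : (Fin d × Bool) ⊕ Bool))
      (univ.filter fun a : Ed G d × Bool => osrc csrc (ctgt b) a = v : Finset _) := by
    rintro ⟨a | a, c⟩ ha ⟨a' | a', c'⟩ ha' h
    · obtain ⟨g, j⟩ := a
      obtain ⟨g', j'⟩ := a'
      simp only [Sum.inl.injEq, Prod.mk.injEq] at h
      obtain ⟨rfl, rfl⟩ := h
      rw [Finset.coe_filter] at ha ha'
      have e1 := ha.2
      have e2 := ha'.2
      cases c
      · have f1 : g * b j = v := e1
        have f2 : g' * b j = v := e2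
        rw [mul_right_cancel (f1.trans f2.symm)]
      · have f1 : g = v := e1
        have f2 : g' = v := e2
        rw [f1, f2]
    · simp at h
    · simp at h
    · simp only [Sum.inr.injEq] at h
      subst h
      rw [Finset.coe_filter] at ha ha'
      have e1 := ha.2
      have e2 := ha'.2
      cases c
      · have f1 : a = v := e1
        have f2 : a' = v := e2
        rw [f1, f2]
      · have f1 : a = v := e1
        have f2 : a' = v := e2
        rw [f1, f2]
  have h2 := Finset.card_le_card_of_injOn (t := (univ : Finset ((Fin d × Bool) ⊕ Bool))) _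
    (fun _ _ => mem_univ _) h
  refine h2.trans (le_of_eq ?_)
  rw [Finset.card_univ, Fintype.card_sum, Fintype.card_prod, Fintype.card_fin, Fintype.card_bool]
  ring

end

theorem job : S_CLOSED → S_RED → S_COVER → S_WORDS → S_CONE → S_ZERO → S_UNIF → S_CONN → S_H1 → S_H0 → Helper835_LTC.S_G0 → S_MAIN := by
  intro hCl hRed hCov hWo hCone hZero hUnif hConn hH1 hH0 hG0
  obtain ⟨d, lam, hd, hl0, hl1, hG⟩ := hG0
  have hc : 0 < (1 - lam) / 2 := by linarith
  have hex : ∀ N : ℕ, ∃ X : PolyCx, X.Connected ∧ (∀ v, X.deg v ≤ 2 * d + 2) ∧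
      N ≤ Fintype.card X.V ∧ min (1 / 6) ((1 - lam) / 2) ≤ X.h0 ∧
      min (1 / 6) ((1 - lam) / 2) ≤ X.h1 := by
    intro N
    obtain ⟨G, _, _, b, hN, hE⟩ := hG (max 2 N)
    obtain ⟨u, W, hu, hW⟩ := hWo G d b lam hd hl0 hl1 hE
    have hU := hUnif (asmX b u W (hCl G d b u W hu hW) (hRed G d b u W)) G d b
      (Equiv.refl _) (Equiv.refl _) hd ⟨((1, 1, ⟨0, hd⟩), 0)⟩ (fun _ => rfl) (fun _ => rfl)
      (hCov G d b u W hd hW)
    refine ⟨asmX b u W (hCl G d b u W hu hW) (hRed G d b u W), ⟨⟨(1 : G)⟩, hConn G d b u hu⟩,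
      fun v => asm_deg b v, (le_max_right _ _).trans hN, ?_, ?_⟩
    · refine (min_le_right _ _).trans ?_
      exact hH0 (asmX b u W (hCl G d b u W hu hW) (hRed G d b u W)) _ hc hU.1 hU.2
        ((le_max_left _ _).trans hN) (hZero G d b lam hd hl0 hl1 hE)
    · refine (min_le_left _ _).trans ?_
      exact hH1 (asmX b u W (hCl G d b u W hu hW) (hRed G d b u W)) 6 (by norm_num)
        ⟨((1, 1, ⟨0, hd⟩), 0)⟩ hU.1 ⟨Sum.inr 1, rfl⟩ (hCone G d b u W hd hu hW)
  choose F hF1 hF2 hF3 hF4 hF5 using hex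
  obtain ⟨X, hX0, hXs⟩ : ∃ X : ℕ → PolyCx, X 0 = F 0 ∧
      ∀ m, X (m + 1) = F (Fintype.card (X m).V + 1) :=
    ⟨fun m => Nat.rec (F 0) (fun _ Y => F (Fintype.card Y.V + 1)) m, rfl, fun _ => rfl⟩
  have hXF : ∀ m, ∃ N, X m = F N := by
    intro m
    cases m with
    | zero => exact ⟨0, hX0⟩
    | succ m => exact ⟨_, hXs m⟩
  have hmono : StrictMono fun m => Fintype.card (X m).V := by
    refine strictMono_nat_of_lt_succ fun m => ?_
    show Fintype.card (X m).V < Fintype.card (X (m + 1)).V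
    rw [hXs m]
    exact hF3 (Fintype.card (X m).V + 1)
  refine ⟨2 * d + 2, min (1 / 6) ((1 - lam) / 2), lt_min (by norm_num) hc, X, ?_, ?_, ?_, ?_⟩
  · intro m
    obtain ⟨N, hN⟩ := hXF m
    rw [hN]
    exact hF1 N
  · intro m
    obtain ⟨N, hN⟩ := hXF m
    rw [hN]
    exact hF2 N
  · rintro m m' hmm ⟨fv, -⟩
    exact hmm (hmono.injective (Fintype.card_congr fv))
  · intro m
    obtain ⟨N, hN⟩ := hXF m
    rw [hN]
    exact ⟨hF4 N, hF5 N⟩

end Pool.Agent.Helper835_PCX.J_ASM
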