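import Mathlib
import Pool.Agent.Helper835_PCX.Defs
/-!
Part of project PCX (coboundary expanders with permutation coefficients).
-/

set_option autoImplicit false

open Finset
open scoped Classical

namespace Pool.Agent.Helper835_PCX.J_CLOSED

open Pool.Agent.Helper835_PCX

/-- `l` is a path from `x` to `y` -/
def PathFrom {V E : Type} (s t : E → V) : V → List (E × Bool) → V → Prop
  | x, [], y => x = y
  | x, a :: l, y => osrc s t a = x ∧ PathFrom s t (otgt s t a) l y

theorem PathFrom.append {V E : Type} {s t : E → V} : ∀ {l m : List (E × Bool)} {x y z : V},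
    PathFrom s t x l y → PathFrom s t y m z → PathFrom s t x (l ++ m) z
  | [], m, x, y, z, h1, h2 => by
    have h : x = y := h1
    subst h
    exact h2
  | a :: l, m, x, y, z, h1, h2 => ⟨h1.1, PathFrom.append h1.2 h2⟩

theorem osrc_orev {V E : Type} (s t : E → V) (a : E × Bool) : osrc s t (orev a) = otgt s t a := by
  rcases a with ⟨e, b⟩
  cases b <;> simp [osrc, otgt, orev]

theorem otgt_orev {V E : Type} (s t : E → V) (a : E × Bool) : otgt s t (orev a) = osrc s t a := by
  rcases a with ⟨e, b⟩
  cases b <;> simp [osrc, otgt, orev]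

theorem PathFrom.inv {V E : Type} {s t : E → V} : ∀ {l : List (E × Bool)} {x y : V},
    PathFrom s t x l y → PathFrom s t y (invp l) x
  | [], x, y, h => by
    have h' : x = y := h
    subst h'
    exact (rfl : x = x)
  | a :: l, x, y, h => by
    have h1 := PathFrom.inv h.2
    have h2 : invp (a :: l) = invp l ++ [orev a] := by simp [invp]
    rw [h2]
    refine PathFrom.append h1 ⟨osrc_orev s t a, ?_⟩
    show otgt s t (orev a) = x
    rw [otgt_orev]
    exact h.1

theorem PathFrom.chain {V E : Type} {s t : E → V} : ∀ {l : List (E × Bool)} {x y : V},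
    PathFrom s t x l y → List.IsChain (fun a c => otgt s t a = osrc s t c) l
  | [], _, _, _ => List.isChain_nil
  | [a], _, _, _ => List.isChain_singleton a
  | a :: c :: l, x, y, h => by
    rw [List.isChain_cons_cons]
    exact ⟨h.2.1.symm, PathFrom.chain h.2⟩

theorem pth_path {G : Type} [Group G] {d : ℕ} (b : Fin d → G) : ∀ (w : List (Fin d)) (v : G),
    PathFrom csrc (ctgt b) v (pth b v w) (v * (w.map b).prod)
  | [], v => by
    show v = v * _
    simp
  | j :: w, v => by
    have h := pth_path b w (v * b j)
    refine ⟨rfl, ?_⟩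
    refine ⟨rfl, ?_⟩
    have h2 : v * ((j :: w).map b).prod = v * b j * (w.map b).prod := by
      simp [mul_assoc]
    rw [h2]
    exact h

theorem Rp_path {G : Type} [Group G] {d : ℕ} (b : Fin d → G) {W : List (Fin d)}
    (hW : (W.map b).prod = 1) (v : G) : PathFrom csrc (ctgt b) v (Rp b W v) v := by
  refine ⟨rfl, ?_⟩
  have h := pth_path b W v
  rw [hW, mul_one] at h
  exact h

theorem job : S_CLOSED := by
  intro G _ d b u W hu hW p
  have key : ∃ v, PathFrom csrc (ctgt b) v (catt b u W p) v := by
    obtain ⟨⟨v, x, j⟩, i⟩ := p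
    refine ⟨v, ?_⟩
    have hR := Rp_path b hW.1 v
    fin_cases i
    · have h1 := pth_path b (u (v⁻¹ * x)) v
      rw [hu, mul_inv_cancel_left] at h1
      have h2 := pth_path b (u (v⁻¹ * (x * b j))) v
      rw [hu, mul_inv_cancel_left] at h2
      refine PathFrom.append h1 ?_
      refine ⟨rfl, ?_⟩
      exact PathFrom.append h2.inv hR
    · exact hR
    · exact ⟨rfl, hR⟩
  obtain ⟨v, hv⟩ := key
  exact (hv.append hv).chain

end Pool.Agent.Helper835_PCX.J_CLOSED
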