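import Mathlib
import Pool.Agent.Helper835_PCX.Defs
/-!
Part of project PCX (coboundary expanders with permutation coefficients).
-/

set_option autoImplicit false

open Finset
open scoped Classical

namespace Pool.Agent.Helper835_PCX.J_CONE

open Pool.Agent.Helper835_PCX

section dhl

variable {n : ℕ}

lemma dh_left (ρ σ τ : Equiv.Perm (Fin n)) : dh (ρ * σ) (ρ * τ) = dh σ τ := by
  unfold dh
  congr 3
  ext j
  simp [Equiv.Perm.mul_apply]

lemma dh_right (ρ σ τ : Equiv.Perm (Fin n)) : dh (σ * ρ) (τ * ρ) = dh σ τ := by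
  unfold dh
  congr 2
  refine Finset.card_bij (fun j _ => ρ j) ?_ ?_ ?_
  · intro j hj
    rw [mem_filter] at hj ⊢
    exact ⟨mem_univ _, hj.2⟩
  · intro j _ k _ h
    exact ρ.injective h
  · intro k hk
    refine ⟨ρ⁻¹ k, ?_, by simp⟩
    rw [mem_filter] at hk ⊢
    refine ⟨mem_univ _, ?_⟩
    simpa [Equiv.Perm.mul_apply] using hk.2

lemma dh_comm (σ τ : Equiv.Perm (Fin n)) : dh σ τ = dh τ σ := by
  unfold dh
  congr 3
  ext j
  simp only [mem_filter, mem_univ, true_and]
  exact ne_comm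

lemma dh_nonneg (σ τ : Equiv.Perm (Fin n)) : 0 ≤ dh σ τ := by
  unfold dh
  positivity

lemma dh_inv (σ τ : Equiv.Perm (Fin n)) : dh σ⁻¹ τ⁻¹ = dh σ τ := by
  rw [← dh_left σ, ← dh_right τ (σ * σ⁻¹) (σ * τ⁻¹)]
  rw [mul_inv_cancel, one_mul, inv_mul_cancel_right, dh_comm]

lemma dh_inv_one (σ : Equiv.Perm (Fin n)) : dh σ⁻¹ 1 = dh σ 1 := by
  have := dh_inv σ 1
  rwa [inv_one] at this

lemma dh_mul_le (σ τ : Equiv.Perm (Fin n)) : dh (σ * τ) 1 ≤ dh σ 1 + dh τ 1 := by
  unfold dh
  rw [← add_div]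
  refine div_le_div_of_nonneg_right ?_ (Nat.cast_nonneg _)
  have h : (univ.filter fun j => (σ * τ) j ≠ (1 : Equiv.Perm (Fin n)) j) ⊆
      (univ.filter fun j => σ j ≠ (1 : Equiv.Perm (Fin n)) j) ∪
      (univ.filter fun j => τ j ≠ (1 : Equiv.Perm (Fin n)) j) := by
    intro j hj
    rw [mem_union, mem_filter, mem_filter]
    rw [mem_filter] at hj
    by_cases h : τ j = j
    · left
      refine ⟨mem_univ _, ?_⟩
      have := hj.2
      rw [Equiv.Perm.mul_apply, h] at this
      exact this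
    · right
      exact ⟨mem_univ _, h⟩
  have h2 := (card_le_card h).trans (card_union_le _ _)
  exact_mod_cast h2

end dhl

section paths

variable {G : Type} [Group G] {d : ℕ} {n : ℕ}

lemma prod_invp (α : Ed G d × Bool → Equiv.Perm (Fin n)) (hα : ∀ a, α (orev a) = (α a)⁻¹)
    (l : List (Ed G d × Bool)) : ((invp l).map α).prod = ((l.map α).prod)⁻¹ := by
  unfold invp
  rw [List.map_reverse, List.map_map, List.prod_inv_reverse, List.map_map]
  have : (α ∘ orev) = (fun x => x⁻¹) ∘ α := by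
    funext a
    exact hα a
  rw [this]

/-- the 0-cochain at `v` -/
noncomputable def bet (b : Fin d → G) (u : G → List (Fin d)) (α : Ed G d × Bool → Equiv.Perm (Fin n))
    (v x : G) : Equiv.Perm (Fin n) := ((pth b v (u (v⁻¹ * x))).map α).prod

/-- the product along the closed path -/
noncomputable def RR (b : Fin d → G) (W : List (Fin d)) (α : Ed G d × Bool → Equiv.Perm (Fin n))
    (v : G) : Equiv.Perm (Fin n) := ((Rp b W v).map α).prod

lemma catt0 (b : Fin d → G) (u : G → List (Fin d)) (W : List (Fin d))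
    (α : Ed G d × Bool → Equiv.Perm (Fin n)) (hα : ∀ a, α (orev a) = (α a)⁻¹) (v x : G) (j : Fin d) :
    ((catt b u W ((v, x, j), 0)).map α).prod =
      bet b u α v x * (α (Sum.inl (x, j), true) * ((bet b u α v (x * b j))⁻¹ * RR b W α v)) := by
  show ((pth b v (u (v⁻¹ * x)) ++ (Sum.inl (x, j), true) ::
      (invp (pth b v (u (v⁻¹ * (x * b j)))) ++ Rp b W v)).map α).prod = _
  rw [List.map_append, List.prod_append, List.map_cons, List.prod_cons, List.map_append,
    List.prod_append, prod_invp α hα]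
  rfl

lemma catt1 (b : Fin d → G) (u : G → List (Fin d)) (W : List (Fin d))
    (α : Ed G d × Bool → Equiv.Perm (Fin n)) (v x : G) (j : Fin d) :
    ((catt b u W ((v, x, j), 1)).map α).prod = RR b W α v := rfl

lemma catt2 (b : Fin d → G) (u : G → List (Fin d)) (W : List (Fin d))
    (α : Ed G d × Bool → Equiv.Perm (Fin n)) (v x : G) (j : Fin d) :
    ((catt b u W ((v, x, j), 2)).map α).prod = α (Sum.inr v, true) * RR b W α v := by
  show (((Sum.inr v, true) :: Rp b W v).map α).prod = _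
  rw [List.map_cons, List.prod_cons]
  rfl

/-- one edge -/
lemma edge_le (a p q R : Equiv.Perm (Fin n)) :
    dh a (p⁻¹ * q) ≤ dh (p * (a * (q⁻¹ * R))) 1 + dh R 1 := by
  have h1 : dh a (p⁻¹ * q) = dh (p * a * q⁻¹) 1 := by
    rw [← dh_left p, ← dh_right q⁻¹]
    congr 1
    group
  have h2 : p * a * q⁻¹ = (p * (a * (q⁻¹ * R))) * R⁻¹ := by group
  rw [h1, h2]
  refine (dh_mul_le _ _).trans ?_
  rw [dh_inv_one]

lemma edge_rev (a p q : Equiv.Perm (Fin n)) : dh a⁻¹ (q⁻¹ * p) = dh a (p⁻¹ * q) := by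
  rw [← dh_inv a (p⁻¹ * q), mul_inv_rev, inv_inv]

lemma loop_le (c R : Equiv.Perm (Fin n)) : dh c 1 ≤ dh (c * R) 1 + dh R 1 := by
  have h2 : c = (c * R) * R⁻¹ := by group
  calc dh c 1 = dh ((c * R) * R⁻¹) 1 := by rw [← h2]
    _ ≤ dh (c * R) 1 + dh R⁻¹ 1 := dh_mul_le _ _
    _ = _ := by rw [dh_inv_one]

/-- sum over all oriented edges -/
lemma lhs_le [Fintype G] (b : Fin d → G) (u : G → List (Fin d)) (W : List (Fin d))
    (α : Ed G d × Bool → Equiv.Perm (Fin n)) (hα : ∀ a, α (orev a) = (α a)⁻¹) (v : G) :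
    ∑ a : Ed G d × Bool, dh (α a) ((bet b u α v (osrc csrc (ctgt b) a))⁻¹ *
        bet b u α v (otgt csrc (ctgt b) a)) ≤
      2 * (∑ x : G, ∑ j : Fin d, (dh ((catt b u W ((v, x, j), 0)).map α).prod 1 + dh (RR b W α v) 1)) +
      2 * ∑ x : G, (dh (α (Sum.inr x, true) * RR b W α x) 1 + dh (RR b W α x) 1) := by
  rw [Fintype.sum_prod_type, Fintype.sum_sum_type, Fintype.sum_prod_type]
  simp only [Fintype.sum_bool]
  rw [mul_sum, mul_sum]
  refine add_le_add (sum_le_sum fun x _ => ?_) (sum_le_sum fun x _ => ?_)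
  · rw [mul_sum]
    refine sum_le_sum fun j _ => ?_
    rw [catt0 b u W α hα]
    have h1 : α (Sum.inl (x, j), false) = (α (Sum.inl (x, j), true))⁻¹ := hα (Sum.inl (x, j), true)
    have h2 : osrc csrc (ctgt b) ((Sum.inl (x, j), true) : Ed G d × Bool) = x := rfl
    have h3 : otgt csrc (ctgt b) ((Sum.inl (x, j), true) : Ed G d × Bool) = x * b j := rfl
    have h4 : osrc csrc (ctgt b) ((Sum.inl (x, j), false) : Ed G d × Bool) = x * b j := rfl
    have h5 : otgt csrc (ctgt b) ((Sum.inl (x, j), false) : Ed G d × Bool) = x := rfl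
    rw [h1, h2, h3, h4, h5, edge_rev]
    have := edge_le (α (Sum.inl (x, j), true)) (bet b u α v x) (bet b u α v (x * b j)) (RR b W α v)
    linarith
  · have h1 : α (Sum.inr x, false) = (α (Sum.inr x, true))⁻¹ := hα (Sum.inr x, true)
    have h2 : osrc csrc (ctgt b) ((Sum.inr x, true) : Ed G d × Bool) = x := rfl
    have h3 : otgt csrc (ctgt b) ((Sum.inr x, true) : Ed G d × Bool) = x := rfl
    have h4 : osrc csrc (ctgt b) ((Sum.inr x, false) : Ed G d × Bool) = x := rfl
    have h5 : otgt csrc (ctgt b) ((Sum.inr x, false) : Ed G d × Bool) = x := rfl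
    rw [h1, h2, h3, h4, h5, inv_mul_cancel, dh_inv_one]
    have := loop_le (α (Sum.inr x, true)) (RR b W α x)
    linarith

end paths

theorem job : S_CONE := by
  intro G _ _ d b u W hd _ _ n α hα
  obtain ⟨N, hN⟩ : ∃ N : ℝ, N = Fintype.card G := ⟨_, rfl⟩
  have hN0 : 0 < N := by rw [hN]; exact_mod_cast Fintype.card_pos
  have hd1 : (1 : ℝ) ≤ d := by exact_mod_cast hd
  have hd0 : (0 : ℝ) < d := by linarith
  obtain ⟨SA, hSA⟩ : ∃ SA : ℝ, SA = ∑ v : G, ∑ x : G, ∑ j : Fin d,
    dh ((catt b u W ((v, x, j), 0)).map α).prod 1 := ⟨_, rfl⟩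
  obtain ⟨SR, hSR⟩ : ∃ SR : ℝ, SR = ∑ v : G, dh (RR b W α v) 1 := ⟨_, rfl⟩
  obtain ⟨SC, hSC⟩ : ∃ SC : ℝ, SC = ∑ v : G, dh (α (Sum.inr v, true) * RR b W α v) 1 := ⟨_, rfl⟩
  have hSA0 : 0 ≤ SA := by
    rw [hSA]
    exact sum_nonneg fun _ _ => sum_nonneg fun _ _ => sum_nonneg fun _ _ => dh_nonneg _ _
  have hSR0 : 0 ≤ SR := by rw [hSR]; exact sum_nonneg fun _ _ => dh_nonneg _ _
  have hSC0 : 0 ≤ SC := by rw [hSC]; exact sum_nonneg fun _ _ => dh_nonneg _ _
  have hP : (∑ p, dh ((catt b u W p).map α).prod 1) = SA + N * d * SR + N * d * SC := by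
    rw [Fintype.sum_prod_type]
    simp only [Fin.sum_univ_three]
    rw [sum_add_distrib, sum_add_distrib]
    congr 1
    · congr 1
      · rw [hSA, Fintype.sum_prod_type]
        refine sum_congr rfl fun v _ => ?_
        rw [Fintype.sum_prod_type]
      · rw [hSR, Fintype.sum_prod_type, mul_sum]
        refine sum_congr rfl fun v _ => ?_
        rw [Fintype.sum_prod_type]
        simp only [catt1, sum_const, card_univ, Fintype.card_fin, nsmul_eq_mul]
        rw [hN]
        ring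
    · rw [hSC, Fintype.sum_prod_type, mul_sum]
      refine sum_congr rfl fun v _ => ?_
      rw [Fintype.sum_prod_type]
      simp only [catt2, sum_const, card_univ, Fintype.card_fin, nsmul_eq_mul]
      rw [hN]
      ring
  have hcE : (Fintype.card (Ed G d) : ℝ) = N * d + N := by
    rw [hN]
    simp [Fintype.card_sum, Fintype.card_prod]
  have hcI : (Fintype.card ((G × G × Fin d) × Fin 3) : ℝ) = N * (N * d) * 3 := by
    rw [hN]
    simp [Fintype.card_prod]
  rw [hP, hcE, hcI]
  have hex : ∃ v ∈ (univ : Finset G), (∑ a : Ed G d × Bool, dh (α a)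
      ((bet b u α v (osrc csrc (ctgt b) a))⁻¹ * bet b u α v (otgt csrc (ctgt b) a))) /
        (2 * (N * d + N)) ≤ 6 * ((SA + N * d * SR + N * d * SC) / (N * (N * d) * 3)) := by
    apply Finset.exists_le_of_sum_le univ_nonempty
    rw [← sum_div, sum_const, card_univ, nsmul_eq_mul, ← hN]
    have h1 : (∑ v : G, ∑ a : Ed G d × Bool, dh (α a)
      ((bet b u α v (osrc csrc (ctgt b) a))⁻¹ * bet b u α v (otgt csrc (ctgt b) a))) ≤
        2 * (SA + N * d * SR) + 2 * (N * (SC + SR)) := by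
      refine (sum_le_sum fun v _ => lhs_le b u W α hα v).trans ?_
      rw [sum_add_distrib, ← mul_sum]
      refine add_le_add (mul_le_mul_of_nonneg_left (le_of_eq ?_) (by norm_num)) (le_of_eq ?_)
      · simp only [sum_add_distrib, sum_const, card_univ, Fintype.card_fin, nsmul_eq_mul]
        rw [hSA, hSR, hN, mul_sum]
        congr 1
        refine sum_congr rfl fun v _ => ?_
        ring
      · rw [sum_const, card_univ, nsmul_eq_mul, sum_add_distrib, ← hSC, ← hSR, ← hN]
        ring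
    have hD : 0 < N * d := by positivity
    have h2 : 2 * (SA + N * d * SR) + 2 * (N * (SC + SR)) ≤ 4 * (SA + N * d * SR + N * d * SC) := by
      have h3 : N * (SC + SR) ≤ N * d * (SC + SR) :=
        mul_le_mul_of_nonneg_right (le_mul_of_one_le_right hN0.le hd1) (by positivity)
      have h4 : 0 ≤ N * d * SC := by positivity
      nlinarith
    calc (∑ v : G, ∑ a : Ed G d × Bool, dh (α a)
      ((bet b u α v (osrc csrc (ctgt b) a))⁻¹ * bet b u α v (otgt csrc (ctgt b) a))) / (2 * (N * d + N))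
        ≤ 4 * (SA + N * d * SR + N * d * SC) / (2 * (N * d + N)) :=
          div_le_div_of_nonneg_right (h1.trans h2) (by positivity)
      _ ≤ 4 * (SA + N * d * SR + N * d * SC) / (2 * (N * d)) :=
          div_le_div_of_nonneg_left (by positivity) (by positivity) (by linarith)
      _ = _ := by
          field_simp
          ring
  obtain ⟨v, -, hv⟩ := hex
  exact ⟨bet b u α v, hv⟩

end Pool.Agent.Helper835_PCX.J_CONE
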