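import Mathlib
import Pool.Agent.Helper835_PCX.Defs
/-!
Part of project PCX (coboundary expanders with permutation coefficients).
-/

set_option autoImplicit false

open Finset
open scoped Classical

namespace Pool.Agent.Helper835_PCX.J_CONN

open Pool.Agent.Helper835_PCX

/-- every word connects `x` to `x` times the value of the word -/
lemma word_conn {G : Type} [Group G] {d : ℕ} (b : Fin d → G) (w : List (Fin d)) : ∀ x : G,
    Relation.ReflTransGen
      (fun x y => ∃ a : Ed G d × Bool, osrc csrc (ctgt b) a = x ∧ otgt csrc (ctgt b) a = y)
      x (x * (w.map b).prod) := by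
  induction w with
  | nil => intro x; simpa using Relation.ReflTransGen.refl
  | cons j w ih =>
    intro x
    have h1 := ih (x * b j)
    have h2 : x * ((j :: w).map b).prod = x * b j * (w.map b).prod := by
      rw [List.map_cons, List.prod_cons, mul_assoc]
    rw [h2]
    refine Relation.ReflTransGen.head ⟨(Sum.inl (x, j), true), ?_, ?_⟩ h1
    · simp [osrc, csrc]
    · simp [otgt, ctgt]

theorem job : S_CONN := by
  intro G _ d b u hu x y
  have h := word_conn b (u (x⁻¹ * y)) x
  rw [hu (x⁻¹ * y), mul_inv_cancel_left] at h
  exact h

end Pool.Agent.Helper835_PCX.J_CONN
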