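import Mathlib
import Pool.Agent.Helper835_PCX.Defs
/-!
Part of project PCX (coboundary expanders with permutation coefficients).
-/

set_option autoImplicit false

open Finset
open scoped Classical

namespace Pool.Agent.Helper835_PCX.J_COVER

open Pool.Agent.Helper835_PCX

theorem pth_mem {G : Type} [Group G] {d : ℕ} (b : Fin d → G) (j : Fin d) (W2 : List (Fin d)) :
    ∀ (W1 : List (Fin d)) (v : G),
      ((Sum.inl (v * (W1.map b).prod, j), true) : Ed G d × Bool) ∈ pth b v (W1 ++ j :: W2) ∧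
      ((Sum.inr (v * (W1.map b).prod * b j), true) : Ed G d × Bool) ∈ pth b v (W1 ++ j :: W2) := by
  intro W1
  induction W1 with
  | nil =>
    intro v
    simp [pth]
  | cons k W1 ih =>
    intro v
    have h := ih (v * b k)
    simp only [List.map_cons, List.prod_cons, List.cons_append, pth, List.mem_cons]
    rw [← mul_assoc]
    exact ⟨Or.inr (Or.inr h.1), Or.inr (Or.inr h.2)⟩

theorem sub {G : Type} [Group G] {d : ℕ} (b : Fin d → G) (u : G → List (Fin d)) (W : List (Fin d))
    (v x : G) (j : Fin d) (i : Fin 3) (a : Ed G d × Bool) (ha : a ∈ pth b v W) :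
    a ∈ catt b u W ((v, x, j), i) := by
  fin_cases i
  · simp only [catt, Rp, List.mem_append, List.mem_cons]
    tauto
  · simp only [catt, Rp, List.mem_cons]
    exact Or.inr ha
  · simp only [catt, Rp, List.mem_cons]
    exact Or.inr (Or.inr ha)

theorem job : S_COVER := by
  intro G _ d b u W hd hC p e
  obtain ⟨⟨v, x, j⟩, i⟩ := p
  refine ⟨true, ?_⟩
  apply sub
  rcases e with ⟨g, k⟩ | g
  · obtain ⟨W1, W2, hW, hp⟩ := hC.2 (v⁻¹ * g) k
    have h := (pth_mem b k W2 W1 v).1
    rw [hp, ← hW, mul_inv_cancel_left] at h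
    exact h
  · obtain ⟨W1, W2, hW, hp⟩ := hC.2 (v⁻¹ * g * (b ⟨0, hd⟩)⁻¹) ⟨0, hd⟩
    have h := (pth_mem b ⟨0, hd⟩ W2 W1 v).2
    rw [hp, ← hW] at h
    simpa [mul_assoc] using h

end Pool.Agent.Helper835_PCX.J_COVER
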