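import Mathlib
import Pool.Agent.Helper835_PCX.Defs

set_option autoImplicit false

open Finset
open scoped Classical

namespace Pool.Agent.Helper835_PCX.J_H0

open Pool.Agent.Helper835_PCX

lemma dh_nonneg {n : ℕ} (σ τ : Equiv.Perm (Fin n)) : 0 ≤ dh σ τ := by
  unfold dh; positivity

lemma dh_pos {n : ℕ} {σ τ : Equiv.Perm (Fin n)} (h : σ ≠ τ) : 0 < dh σ τ := by
  have hj : ∃ j, σ j ≠ τ j := by
    by_contra hc
    push Not at hc
    exact h (Equiv.ext hc)
  obtain ⟨j, hj⟩ := hj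
  have h1 : 0 < (univ.filter fun j => σ j ≠ τ j).card :=
    Finset.card_pos.2 ⟨j, by simpa using hj⟩
  have hn : 0 < n := lt_of_le_of_lt (Nat.zero_le _) j.isLt
  unfold dh
  positivity

lemma dist0_eq (X : PolyCx) (h : ∀ v, X.mu0 v = 1 / Fintype.card X.V) {n : ℕ}
    (β β' : X.V → Equiv.Perm (Fin n)) :
    X.dist0 β β' = (∑ v, dh (β v) (β' v)) / Fintype.card X.V := by
  unfold PolyCx.dist0
  rw [Finset.sum_div]
  refine Finset.sum_congr rfl fun v _ => ?_
  rw [h v]; ring

lemma norm1_eq (X : PolyCx) (h : ∀ e, X.mu1 e = 1 / Fintype.card X.E) {n : ℕ}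
    (α : X.E × Bool → Equiv.Perm (Fin n)) :
    X.norm1 α = (∑ a : X.E × Bool, dh (α a) 1) / (2 * Fintype.card X.E) := by
  unfold PolyCx.norm1 PolyCx.dist1
  rw [Finset.sum_div]
  refine Finset.sum_congr rfl fun a _ => ?_
  rw [h a.1]
  rw [div_div, mul_comm (2 : ℝ)]
  ring

theorem job : S_H0 := by
  intro X c hc hmu1 hmu0 hV hyp
  unfold PolyCx.h0
  have hV0 : (0 : ℝ) < Fintype.card X.V := by
    have : 0 < Fintype.card X.V := by omega
    exact_mod_cast this
  apply le_csInf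
  · obtain ⟨v0, v1, hne⟩ := Fintype.exists_pair_of_one_lt_card (α := X.V) (by omega)
    refine ⟨_, 2, by norm_num, fun v => if v = v0 then Equiv.swap 0 1 else 1, ?_, rfl⟩
    rintro ⟨σ, hσ⟩
    have h0 := congrFun hσ v0
    have h1 := congrFun hσ v1
    simp only [if_true] at h0
    rw [if_neg (Ne.symm hne)] at h1
    rw [← h1] at h0
    have := congrArg (fun f : Equiv.Perm (Fin 2) => f 0) h0
    simp at this
  · rintro r ⟨n, hn, β, hβ, rfl⟩
    obtain ⟨σ, hσ⟩ := hyp n β
    have hle : X.distB0 β ≤ X.dist0 β fun _ => σ :=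
      ciInf_le (Set.finite_range _).bddBelow σ
    have hpos : 0 < X.distB0 β := by
      obtain ⟨τ, hτ⟩ := exists_eq_ciInf_of_finite
        (f := fun σ : Equiv.Perm (Fin n) => X.dist0 β fun _ => σ)
      have hv : ∃ v, β v ≠ τ := by
        by_contra hcon
        push Not at hcon
        exact hβ ⟨τ, funext hcon⟩
      obtain ⟨v, hv⟩ := hv
      unfold PolyCx.distB0
      rw [← hτ]
      show 0 < X.dist0 β fun _ => τ
      rw [dist0_eq X hmu0]
      apply div_pos _ hV0
      exact Finset.sum_pos' (fun v _ => dh_nonneg _ _) ⟨v, mem_univ _, dh_pos hv⟩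
    rw [le_div_iff₀ hpos, norm1_eq X hmu1]
    refine le_trans ?_ hσ
    rw [← dist0_eq X hmu0 β fun _ => σ]
    exact mul_le_mul_of_nonneg_left hle hc.le

end Pool.Agent.Helper835_PCX.J_H0
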