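import Mathlib
import Pool.Agent.Helper835_PCX.Defs
/-!
Part of project PCX (coboundary expanders with permutation coefficients).
-/

set_option autoImplicit false

open Finset
open scoped Classical

namespace Pool.Agent.Helper835_PCX.J_H1

open Pool.Agent.Helper835_PCX

lemma dh_nonneg {n : ℕ} (σ τ : Equiv.Perm (Fin n)) : 0 ≤ dh σ τ := by
  unfold dh
  positivity

lemma dh_pos {n : ℕ} (hn : 1 ≤ n) (σ τ : Equiv.Perm (Fin n)) (h : σ ≠ τ) : 0 < dh σ τ := by
  unfold dh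
  have h1 : ∃ j, σ j ≠ τ j := by
    by_contra hc
    push Not at hc
    exact h (Equiv.ext hc)
  obtain ⟨j, hj⟩ := h1
  have h2 : 0 < (univ.filter fun j => σ j ≠ τ j).card :=
    Finset.card_pos.mpr ⟨j, by simp [hj]⟩
  have h3 : (0 : ℝ) < (univ.filter fun j => σ j ≠ τ j).card := by exact_mod_cast h2
  have h4 : (0 : ℝ) < n := by exact_mod_cast hn
  exact div_pos h3 h4

lemma dist1_eq (X : PolyCx) (hmu : ∀ e, X.mu1 e = 1 / Fintype.card X.E) {n : ℕ}
    (α α' : X.E × Bool → Equiv.Perm (Fin n)) :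
    X.dist1 α α' = (∑ a : X.E × Bool, dh (α a) (α' a)) / (2 * Fintype.card X.E) := by
  unfold PolyCx.dist1
  rw [Finset.sum_div]
  refine Finset.sum_congr rfl fun a _ => ?_
  rw [hmu]
  ring

lemma distB1_le (X : PolyCx) {n : ℕ} (α : X.E × Bool → Equiv.Perm (Fin n))
    (β : X.V → Equiv.Perm (Fin n)) : X.distB1 α ≤ X.dist1 α (X.d0 β) := by
  unfold PolyCx.distB1
  exact ciInf_le (Set.finite_range _).bddBelow β

lemma distB1_pos (X : PolyCx) (hmu : ∀ e, X.mu1 e = 1 / Fintype.card X.E) {n : ℕ} (hn : 1 ≤ n)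
    (α : X.E × Bool → Equiv.Perm (Fin n)) (h : ¬ ∃ β, α = X.d0 β) : 0 < X.distB1 α := by
  obtain ⟨β, hβ⟩ := exists_eq_ciInf_of_finite
    (f := fun β : X.V → Equiv.Perm (Fin n) => X.dist1 α (X.d0 β))
  have h0 : X.distB1 α = X.dist1 α (X.d0 β) := by
    unfold PolyCx.distB1
    exact hβ.symm
  rw [h0, dist1_eq X hmu]
  have h1 : ∃ a, α a ≠ X.d0 β a := by
    by_contra hc
    push Not at hc
    exact h ⟨β, funext hc⟩
  obtain ⟨a, ha⟩ := h1
  have hE : 0 < Fintype.card X.E := Fintype.card_pos_iff.mpr ⟨a.1⟩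
  have hE' : (0 : ℝ) < Fintype.card X.E := by exact_mod_cast hE
  refine div_pos ?_ (by positivity)
  exact Finset.sum_pos' (fun b _ => dh_nonneg _ _) ⟨a, Finset.mem_univ _, dh_pos hn _ _ ha⟩

lemma nonempty_set (X : PolyCx) (hl : ∃ e, X.src e = X.tgt e) :
    ∃ α : X.E × Bool → Equiv.Perm (Fin 2), X.IsC1 α ∧ ¬ ∃ β, α = X.d0 β := by
  obtain ⟨e0, he0⟩ := hl
  refine ⟨fun a => if a.1 = e0 then Equiv.swap 0 1 else 1, ?_, ?_⟩
  · intro a
    by_cases h : a.1 = e0
    · simp [orev, h]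
    · simp [orev, h]
  · rintro ⟨β, hβ⟩
    have h1 := congrFun hβ (e0, true)
    simp only [PolyCx.d0, osrc, otgt, if_true, he0, inv_mul_cancel] at h1
    have h2 := congrArg (fun s : Equiv.Perm (Fin 2) => s 0) h1
    simp at h2

theorem job : S_H1 := by
  intro X c hc hP hmu hl hmain
  unfold PolyCx.h1
  apply le_csInf
  · obtain ⟨α, h1, h2⟩ := nonempty_set X hl
    exact ⟨_, 2, by norm_num, α, h1, h2, rfl⟩
  · rintro r ⟨n, hn, α, hα, hnc, rfl⟩
    have hpos := distB1_pos X hmu hn α hnc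
    obtain ⟨β, hβ⟩ := hmain n α hα
    have h1 : X.distB1 α ≤ c * X.norm2 (X.d1 α) := by
      refine (distB1_le X α β).trans ?_
      rw [dist1_eq X hmu]
      exact hβ
    rw [div_le_div_iff₀ hc hpos]
    linarith

end Pool.Agent.Helper835_PCX.J_H1
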