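import Mathlib
import Pool.Agent.Helper835_PCX.Defs
/-!
Part of project PCX (coboundary expanders with permutation coefficients).
-/

set_option autoImplicit false

open Finset
open scoped Classical

namespace Pool.Agent.Helper835_PCX.J_RED

open Pool.Agent.Helper835_PCX

/-- state automaton for alternating lists -/
def Alt {G : Type} {d : ℕ} : Bool → List (Ed G d × Bool) → Bool → Prop
  | s, [], t => s = t
  | s, a :: l, t => a.1.isLeft = s ∧ Alt (!s) l t

theorem alt_append {G : Type} {d : ℕ} (l l' : List (Ed G d × Bool)) :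
    ∀ s t u : Bool, Alt s l t → Alt t l' u → Alt s (l ++ l') u := by
  induction l with
  | nil =>
    intro s t u h h'
    have h1 : s = t := h
    subst h1
    exact h'
  | cons a l ih =>
    intro s t u h h'
    exact ⟨h.1, ih _ _ _ h.2 h'⟩

theorem alt_invp {G : Type} {d : ℕ} (l : List (Ed G d × Bool)) :
    ∀ s t : Bool, Alt s l t → Alt (!t) (invp l) (!s) := by
  induction l with
  | nil =>
    intro s t h
    have h1 : s = t := h
    subst h1
    exact rfl
  | cons a l ih =>
    intro s t h
    have h1 : invp (a :: l) = invp l ++ [orev a] := by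
      simp [invp]
    rw [h1]
    refine alt_append _ _ _ _ _ (ih _ _ h.2) ?_
    refine ⟨?_, ?_⟩
    · rw [Bool.not_not]
      exact h.1
    · show (!(!(!s))) = !s
      rw [Bool.not_not]

theorem alt_pth {G : Type} [Group G] {d : ℕ} (b : Fin d → G) (w : List (Fin d)) :
    ∀ v : G, Alt true (pth b v w) true := by
  induction w with
  | nil => intro v; exact rfl
  | cons j w ih => intro v; exact ⟨rfl, rfl, ih _⟩

theorem alt_chain {G : Type} {d : ℕ} : ∀ (l : List (Ed G d × Bool)) (s t : Bool), Alt s l t →
    List.IsChain (fun a c => c ≠ orev a) l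
  | [], _, _, _ => List.isChain_nil
  | [a], _, _, _ => List.isChain_singleton a
  | a :: c :: l, s, t, h => by
    refine List.isChain_cons_cons.2 ⟨?_, alt_chain (c :: l) _ t h.2⟩
    intro hc
    have h1 : a.1.isLeft = s := h.1
    have h2 : c.1.isLeft = !s := h.2.1
    rw [hc] at h2
    have h3 : a.1.isLeft = !s := h2
    rw [h1] at h3
    cases s <;> simp at h3

theorem true_chain {E : Type} : ∀ (l : List (E × Bool)), (∀ a ∈ l, a.2 = true) →
    List.IsChain (fun a c => c ≠ orev a) l
  | [], _ => List.isChain_nil
  | [a], _ => List.isChain_singleton a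
  | a :: c :: l, h => by
    refine List.isChain_cons_cons.2 ⟨?_, true_chain (c :: l) (fun x hx => h x (List.mem_cons_of_mem _ hx))⟩
    intro hc
    have h1 : a.2 = true := h a (by simp)
    have h2 : c.2 = true := h c (by simp)
    rw [hc] at h2
    have h3 : (!a.2) = true := h2
    rw [h1] at h3
    simp at h3

theorem pth_true {G : Type} [Group G] {d : ℕ} (b : Fin d → G) (w : List (Fin d)) :
    ∀ v : G, ∀ a ∈ pth b v w, a.2 = true := by
  induction w with
  | nil => intro v a ha; simp [pth] at ha
  | cons j w ih =>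
    intro v a ha
    rw [pth, List.mem_cons, List.mem_cons] at ha
    rcases ha with rfl | rfl | ha
    · rfl
    · rfl
    · exact ih _ a ha

theorem Rp_true {G : Type} [Group G] {d : ℕ} (b : Fin d → G) (W : List (Fin d)) (v : G) :
    ∀ a ∈ Rp b W v, a.2 = true := by
  intro a ha
  rw [Rp, List.mem_cons] at ha
  rcases ha with rfl | ha
  · rfl
  · exact pth_true b W v a ha

theorem alt_Rp {G : Type} [Group G] {d : ℕ} (b : Fin d → G) (W : List (Fin d)) (v : G) :
    Alt false (Rp b W v) true := ⟨rfl, alt_pth b W v⟩

theorem job : S_RED := by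
  intro G _ d b u W p
  obtain ⟨⟨v, x, j⟩, i⟩ := p
  fin_cases i
  · have h1 : Alt true (catt b u W ((v, x, j), 0)) true := by
      show Alt true (pth b v (u (v⁻¹ * x)) ++ (Sum.inl (x, j), true) ::
        (invp (pth b v (u (v⁻¹ * (x * b j)))) ++ Rp b W v)) true
      refine alt_append _ _ _ _ _ (alt_pth b _ v) ⟨rfl, ?_⟩
      exact alt_append _ _ _ _ _ (alt_invp _ _ _ (alt_pth b _ v)) (alt_Rp b W v)
    exact alt_chain _ _ _ (alt_append _ _ _ _ _ h1 h1)
  · have h1 : ∀ a ∈ catt b u W ((v, x, j), 1), a.2 = true := Rp_true b W v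
    refine true_chain _ fun a ha => ?_
    rw [List.mem_append] at ha
    rcases ha with ha | ha
    · exact h1 a ha
    · exact h1 a ha
  · have h1 : ∀ a ∈ catt b u W ((v, x, j), 2), a.2 = true := by
      intro a ha
      have ha' : a ∈ (Sum.inr v, true) :: Rp b W v := ha
      rw [List.mem_cons] at ha'
      rcases ha' with rfl | ha'
      · rfl
      · exact Rp_true b W v a ha'
    refine true_chain _ fun a ha => ?_
    rw [List.mem_append] at ha
    rcases ha with ha | ha
    · exact h1 a ha
    · exact h1 a ha

end Pool.Agent.Helper835_PCX.J_RED
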