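import Mathlib
import Pool.Agent.Helper835_PCX.Defs
/-!
Part of project PCX (coboundary expanders with permutation coefficients).
-/

set_option autoImplicit false

open Finset
open scoped Classical

namespace Pool.Agent.Helper835_PCX.J_UNIF

open Pool.Agent.Helper835_PCX

/-- left translation of the edges -/
def tr {G : Type} [Group G] {d : ℕ} (k : G) : Ed G d ≃ Ed G d where
  toFun := Sum.map (fun p => (k * p.1, p.2)) (fun g => k * g)
  invFun := Sum.map (fun p => (k⁻¹ * p.1, p.2)) (fun g => k⁻¹ * g)
  left_inv := by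
    rintro (⟨g, j⟩ | g) <;> simp
  right_inv := by
    rintro (⟨g, j⟩ | g) <;> simp

/-- number of the edges at a vertex of the Cayley graph -/
noncomputable def M {G : Type} [Group G] [Fintype G] {d : ℕ} (b : Fin d → G) (g : G) : ℕ :=
  (univ.filter fun e : Ed G d => csrc e = g ∨ ctgt b e = g).card

theorem M_eq {G : Type} [Group G] [Fintype G] {d : ℕ} (b : Fin d → G) (g : G) : M b g = M b 1 := by
  unfold M
  symm
  apply Finset.card_bij (fun e _ => tr g e)
  · intro e he
    rw [mem_filter] at he ⊢
    refine ⟨mem_univ _, ?_⟩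
    rcases e with ⟨h, j⟩ | h
    · have h1 : h = 1 ∨ h * b j = 1 := he.2
      show g * h = g ∨ g * h * b j = g
      rcases h1 with h1 | h1
      · left; rw [h1, mul_one]
      · right; rw [mul_assoc, h1, mul_one]
    · have h1 : h = 1 ∨ h = 1 := he.2
      show g * h = g ∨ g * h = g
      rcases h1 with h1 | h1
      · left; rw [h1, mul_one]
      · left; rw [h1, mul_one]
  · intro e _ e' _ h
    exact (tr g).injective h
  · intro e he
    rw [mem_filter] at he
    refine ⟨(tr g).symm e, ?_, (tr g).apply_symm_apply e⟩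
    rw [mem_filter]
    refine ⟨mem_univ _, ?_⟩
    rcases e with ⟨h, j⟩ | h
    · have h1 : h = g ∨ h * b j = g := he.2
      show g⁻¹ * h = 1 ∨ g⁻¹ * h * b j = 1
      rcases h1 with h1 | h1
      · left; rw [h1, inv_mul_cancel]
      · right; rw [mul_assoc, h1, inv_mul_cancel]
    · have h1 : h = g ∨ h = g := he.2
      show g⁻¹ * h = 1 ∨ g⁻¹ * h = 1
      rcases h1 with h1 | h1
      · left; rw [h1, inv_mul_cancel]
      · left; rw [h1, inv_mul_cancel]

theorem M_pos {G : Type} [Group G] [Fintype G] {d : ℕ} (b : Fin d → G) : 0 < M b 1 := by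
  unfold M
  apply Finset.card_pos.2
  exact ⟨Sum.inr 1, mem_filter.2 ⟨mem_univ _, Or.inl rfl⟩⟩

theorem job : S_UNIF := by
  intro X G _ _ d b fv fe hd hP hs ht hc
  have hw1 : ∀ e, X.w1 e = Fintype.card X.P := by
    intro e
    unfold PolyCx.w1
    rw [Finset.filter_true_of_mem (fun p _ => hc p e), Finset.card_univ]
  have hPpos : (0 : ℝ) < Fintype.card X.P := by exact_mod_cast Fintype.card_pos
  have hEne : Nonempty X.E := ⟨fe.symm (Sum.inr 1)⟩
  have hEpos : (0 : ℝ) < Fintype.card X.E := by exact_mod_cast Fintype.card_pos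
  have hVne : Nonempty X.V := ⟨fv.symm 1⟩
  have hVpos : (0 : ℝ) < Fintype.card X.V := by exact_mod_cast Fintype.card_pos
  have hmu1 : ∀ e, X.mu1 e = 1 / Fintype.card X.E := by
    intro e
    unfold PolyCx.mu1
    rw [hw1 e, Finset.sum_congr rfl (fun e' _ => hw1 e'), Finset.sum_const, Finset.card_univ,
      nsmul_eq_mul]
    field_simp
  refine ⟨hmu1, ?_⟩
  have hN : ∀ v, (univ.filter fun e : X.E => X.src e = v ∨ X.tgt e = v).card = M b 1 := by
    intro v
    rw [← M_eq b (fv v)]
    unfold M
    apply Finset.card_bij (fun e _ => fe e)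
    · intro e he
      rw [mem_filter] at he ⊢
      refine ⟨mem_univ _, ?_⟩
      rw [← hs, ← ht]
      rcases he.2 with h | h
      · left; rw [h]
      · right; rw [h]
    · intro e _ e' _ h
      exact fe.injective h
    · intro e he
      rw [mem_filter] at he
      refine ⟨fe.symm e, ?_, fe.apply_symm_apply e⟩
      rw [mem_filter]
      refine ⟨mem_univ _, ?_⟩
      have h1 := hs (fe.symm e)
      have h2 := ht (fe.symm e)
      rw [Equiv.apply_symm_apply] at h1 h2
      rcases he.2 with h | h
      · left; rw [h] at h1; exact fv.injective h1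
      · right; rw [h] at h2; exact fv.injective h2
  have hw0 : ∀ v, X.w0 v = (M b 1 : ℝ) * (1 / Fintype.card X.E) := by
    intro v
    unfold PolyCx.w0
    rw [Finset.sum_congr rfl (fun e _ => hmu1 e), Finset.sum_const, nsmul_eq_mul]
    congr 1
    exact_mod_cast hN v
  have hMpos : (0 : ℝ) < (M b 1 : ℝ) := by exact_mod_cast M_pos b
  intro v
  unfold PolyCx.mu0
  rw [hw0 v, Finset.sum_congr rfl (fun v' _ => hw0 v'), Finset.sum_const, Finset.card_univ,
    nsmul_eq_mul]
  field_simp

end Pool.Agent.Helper835_PCX.J_UNIF
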