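import Mathlib
import Pool.Agent.Helper835_PCX.Defs
/-!
Part of project PCX (coboundary expanders with permutation coefficients).
-/

set_option autoImplicit false

open Finset
open scoped Classical

namespace Pool.Agent.Helper835_PCX.J_WORDS

open Pool.Agent.Helper835_PCX

lemma all_reach (G : Type) [Group G] [Fintype G] (d : ℕ) (b : Fin d → G) (lam : ℝ) (hd : 0 < d) (h0 : 0 ≤ lam)
    (h1 : lam < 1) (hE : Helper835_LTC.Exp1 lam b) (g : G) : ∃ w : List (Fin d), (w.map b).prod = g := by
  set S : Finset G := univ.filter (fun g => ∃ w : List (Fin d), (w.map b).prod = g) with hS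
  have hmem : ∀ g, g ∈ S ↔ ∃ w : List (Fin d), (w.map b).prod = g := fun g => by simp [hS]
  have hone : (1 : G) ∈ S := (hmem 1).2 ⟨[], rfl⟩
  have hmul : ∀ g ∈ S, ∀ j, g * b j ∈ S := by
    intro g hg j
    obtain ⟨w, hw⟩ := (hmem g).1 hg
    refine (hmem _).2 ⟨w ++ [j], ?_⟩
    rw [List.map_append, List.prod_append, hw]
    simp
  have himg : ∀ j, S.image (fun g => g * b j) = S := by
    intro j
    apply Finset.eq_of_subset_of_card_le
    · intro x hx
      obtain ⟨g, hg, rfl⟩ := Finset.mem_image.1 hx
      exact hmul g hg j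
    · rw [Finset.card_image_of_injective _ (mul_left_injective (b j))]
  have hiff : ∀ g j, g * b j ∈ S ↔ g ∈ S := by
    intro g j
    constructor
    · intro h
      rw [← himg j] at h
      obtain ⟨g', hg', h2⟩ := Finset.mem_image.1 h
      have := mul_right_cancel h2
      rwa [← this]
    · intro h
      exact hmul g h j
  have hG : (0 : ℝ) < Fintype.card G := by exact_mod_cast Fintype.card_pos_iff.2 ⟨(1 : G)⟩
  set c : ℝ := S.card / Fintype.card G with hc
  set f : G → ℝ := fun g => (if g ∈ S then 1 else 0) - c with hf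
  have hsum : ∑ g, f g = 0 := by
    rw [hf, Finset.sum_sub_distrib, Finset.sum_ite_mem, Finset.univ_inter, Finset.sum_const, Finset.sum_const,
      Finset.card_univ, nsmul_eq_mul, nsmul_eq_mul, hc, mul_div_cancel₀ _ hG.ne']
    ring
  have hstep : ∀ g, ∑ j, f (g * b j) = d * f g := by
    intro g
    have : ∀ j ∈ (univ : Finset (Fin d)), f (g * b j) = f g := by
      intro j _
      simp only [hf, hiff]
    rw [Finset.sum_congr rfl this, Finset.sum_const, Finset.card_univ, Fintype.card_fin, nsmul_eq_mul]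
  have hE' := hE f hsum
  simp only [hstep, Fintype.card_fin, mul_pow] at hE'
  rw [← Finset.mul_sum] at hE'
  have hd' : (0 : ℝ) < (d : ℝ) ^ 2 := by positivity
  have hnn : 0 ≤ ∑ g, f g ^ 2 := Finset.sum_nonneg fun _ _ => sq_nonneg _
  have hlam : lam ^ 2 < 1 := by nlinarith
  have hz : ∑ g, f g ^ 2 = 0 := by
    by_contra hne
    have hpos : 0 < ∑ g, f g ^ 2 := lt_of_le_of_ne hnn (Ne.symm hne)
    have : lam ^ 2 * (d : ℝ) ^ 2 * ∑ g, f g ^ 2 < (d : ℝ) ^ 2 * ∑ g, f g ^ 2 := by
      have h3 : lam ^ 2 * ((d : ℝ) ^ 2 * ∑ g, f g ^ 2) < 1 * ((d : ℝ) ^ 2 * ∑ g, f g ^ 2) :=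
        mul_lt_mul_of_pos_right hlam (mul_pos hd' hpos)
      linarith
    linarith
  have hall : ∀ g, f g = 0 := by
    intro g
    have := (Finset.sum_eq_zero_iff_of_nonneg (fun g _ => sq_nonneg (f g))).1 hz g (Finset.mem_univ _)
    exact pow_eq_zero_iff (two_ne_zero) |>.1 this
  have hc1 : c = 1 := by
    have := hall 1
    simp only [hf, if_pos hone] at this
    linarith
  have := hall g
  simp only [hf, hc1] at this
  rw [← hmem]
  by_contra hn
  rw [if_neg hn] at this
  norm_num at this

theorem job : S_WORDS := by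
  intro G _ _ d b lam hd h0 h1 hE
  choose u hu using all_reach G d b lam hd h0 h1 hE
  set piece : G × Fin d → List (Fin d) := fun p => u p.1 ++ p.2 :: u ((p.1 * b p.2)⁻¹) with hpiece
  have hp : ∀ p, ((piece p).map b).prod = 1 := by
    intro p
    rw [hpiece]
    simp only [List.map_append, List.prod_append, List.map_cons, List.prod_cons, hu]
    group
  have hL : ∀ L : List (G × Fin d), ((L.flatMap piece).map b).prod = 1 := by
    intro L
    induction L with
    | nil => rfl
    | cons p L ih =>
      rw [List.flatMap_cons, List.map_append, List.prod_append, hp, ih, mul_one]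
  refine ⟨u, (Finset.univ : Finset (G × Fin d)).toList.flatMap piece, hu, hL _, ?_⟩
  intro g j
  have hmem : (g, j) ∈ (Finset.univ : Finset (G × Fin d)).toList := by simp
  obtain ⟨L1, L2, hs⟩ := List.append_of_mem hmem
  refine ⟨L1.flatMap piece ++ u g, u ((g * b j)⁻¹) ++ L2.flatMap piece, ?_, ?_⟩
  · rw [hs, List.flatMap_append, List.flatMap_cons, hpiece]
    simp only [List.append_assoc, List.cons_append]
  · rw [List.map_append, List.prod_append, hL, hu, one_mul]

end Pool.Agent.Helper835_PCX.J_WORDS
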