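import Mathlib
import Pool.Agent.Helper835_PCX.Defs

set_option autoImplicit false

open Finset
open scoped Classical

namespace Pool.Agent.Helper835_PCX.J_ZERO

open Pool.Agent.Helper835_PCX

lemma dh_eq {n : ℕ} (σ τ : Equiv.Perm (Fin n)) :
    dh σ τ = (∑ i, if σ i = τ i then (0 : ℝ) else 1) / n := by
  unfold dh
  congr 1
  rw [Finset.card_filter]
  push_cast
  apply Finset.sum_congr rfl
  intro i _
  by_cases h : σ i = τ i
  · simp [h]
  · simp [h]

lemma dh_comm {n : ℕ} (σ τ : Equiv.Perm (Fin n)) : dh σ τ = dh τ σ := by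
  rw [dh_eq, dh_eq]
  congr 1
  apply Finset.sum_congr rfl
  intro i _
  by_cases h : σ i = τ i
  · rw [if_pos h, if_pos h.symm]
  · rw [if_neg h, if_neg (fun h' => h h'.symm)]

lemma dh_inv_mul {n : ℕ} (σ τ : Equiv.Perm (Fin n)) : dh (σ⁻¹ * τ) 1 = dh σ τ := by
  rw [dh_eq, dh_eq]
  congr 1
  apply Finset.sum_congr rfl
  intro i _
  have : (σ⁻¹ * τ) i = (1 : Equiv.Perm (Fin n)) i ↔ σ i = τ i := by
    rw [Equiv.Perm.mul_apply, Equiv.Perm.one_apply, Equiv.Perm.inv_eq_iff_eq]
    exact eq_comm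
  by_cases h : σ i = τ i
  · rw [if_pos h, if_pos (this.2 h)]
  · rw [if_neg h, if_neg (fun h' => h (this.1 h'))]

lemma dh_self {n : ℕ} (σ : Equiv.Perm (Fin n)) : dh σ σ = 0 := by
  rw [dh_eq]
  simp

lemma dh_nonneg {n : ℕ} (σ τ : Equiv.Perm (Fin n)) : 0 ≤ dh σ τ := by
  unfold dh
  positivity

/-- step A -/
lemma stepA {G : Type} [Group G] [Fintype G] {d : ℕ} (b : Fin d → G) {n : ℕ}
    (β : G → Equiv.Perm (Fin n)) :
    ∑ a : Ed G d × Bool, dh ((β (osrc csrc (ctgt b) a))⁻¹ * β (otgt csrc (ctgt b) a)) 1 =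
      2 * ∑ x : G, ∑ j : Fin d, dh (β x) (β (x * b j)) := by
  have h1 : ∀ a : Ed G d × Bool,
      dh ((β (osrc csrc (ctgt b) a))⁻¹ * β (otgt csrc (ctgt b) a)) 1 =
        dh (β (csrc a.1)) (β (ctgt b a.1)) := by
    rintro ⟨e, c⟩
    rw [dh_inv_mul]
    cases c
    · simp only [osrc, otgt, Bool.false_eq_true, if_false]
      exact dh_comm _ _
    · simp only [osrc, otgt, if_true]
  rw [Finset.sum_congr rfl (fun a _ => h1 a), Fintype.sum_prod_type]
  simp only [Finset.sum_const, Finset.card_univ, Fintype.card_bool, nsmul_eq_mul]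
  rw [← Finset.mul_sum, Fintype.sum_sum_type]
  have h2 : ∑ g : G, dh (β (csrc (Sum.inr g : Ed G d))) (β (ctgt b (Sum.inr g))) = 0 := by
    apply Finset.sum_eq_zero
    intro g _
    exact dh_self _
  rw [h2, add_zero, Fintype.sum_prod_type]
  push_cast
  rfl

/-- quadratic form -/
lemma quad {G : Type} [Group G] [Fintype G] {d : ℕ} (b : Fin d → G) (lam : ℝ) (h0 : 0 ≤ lam)
    (hE : Helper835_LTC.Exp1 lam b) (A : G → ℝ) :
    ∑ x : G, ∑ j : Fin d, A x * A (x * b j) ≤
      lam * d * ∑ x, A x ^ 2 + (1 - lam) * d * ((∑ x, A x) ^ 2 / Fintype.card G) := by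
  have hN : (0 : ℝ) < Fintype.card G := by exact_mod_cast Fintype.card_pos
  set N : ℝ := (Fintype.card G : ℝ) with hNdef
  set s : ℝ := ∑ x, A x with hs
  set p : ℝ := s / N with hp
  have hpN : p * N = s := by rw [hp]; field_simp
  let F : G → ℝ := fun x => A x - p
  have hF0 : ∑ x, F x = 0 := by
    simp only [F, Finset.sum_sub_distrib, Finset.sum_const, Finset.card_univ, nsmul_eq_mul]
    rw [← hs, ← hNdef]
    linarith
  have hE' := hE F hF0
  rw [Fintype.card_fin] at hE'
  have hF2 : ∑ x, F x ^ 2 = ∑ x, A x ^ 2 - s ^ 2 / N := by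
    have : ∀ x, F x ^ 2 = A x ^ 2 - 2 * p * A x + p ^ 2 := fun x => by simp only [F]; ring
    rw [Finset.sum_congr rfl (fun x _ => this x), Finset.sum_add_distrib, Finset.sum_sub_distrib,
      ← Finset.mul_sum, Finset.sum_const, Finset.card_univ, nsmul_eq_mul, ← hs, ← hNdef, hp]
    field_simp
    ring
  have hshift : ∀ j, ∑ x, A (x * b j) = s := by
    intro j
    rw [hs]
    exact Equiv.sum_comp (Equiv.mulRight (b j)) A
  have hcross : ∑ x, F x * ∑ j, F (x * b j) =
      ∑ x : G, ∑ j : Fin d, A x * A (x * b j) - d * (s ^ 2 / N) := by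
    have h1 : ∀ x, F x * ∑ j, F (x * b j) = ∑ j : Fin d, A x * A (x * b j) -
        p * ∑ j : Fin d, A (x * b j) - (d * p) * A x + d * p ^ 2 := by
      intro x
      simp only [F, Finset.sum_sub_distrib, Finset.sum_const, Finset.card_univ, nsmul_eq_mul,
        Fintype.card_fin, ← Finset.mul_sum]
      ring
    rw [Finset.sum_congr rfl (fun x _ => h1 x), Finset.sum_add_distrib, Finset.sum_sub_distrib,
      Finset.sum_sub_distrib, ← Finset.mul_sum, ← Finset.mul_sum, Finset.sum_const,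
      Finset.card_univ, nsmul_eq_mul, ← hs, ← hNdef]
    rw [Finset.sum_comm (f := fun x j => A (x * b j)),
      Finset.sum_congr rfl (fun j _ => hshift j), Finset.sum_const, Finset.card_univ,
      Fintype.card_fin, nsmul_eq_mul, hp]
    field_simp
    ring
  have hcs := Finset.sum_mul_sq_le_sq_mul_sq Finset.univ F (fun x => ∑ j, F (x * b j))
  have hFnn : 0 ≤ ∑ x, F x ^ 2 := Finset.sum_nonneg (fun x _ => sq_nonneg _)
  have hsq : (∑ x, F x * ∑ j, F (x * b j)) ^ 2 ≤ (lam * d * ∑ x, F x ^ 2) ^ 2 := by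
    calc (∑ x, F x * ∑ j, F (x * b j)) ^ 2
        ≤ (∑ x, F x ^ 2) * ∑ x, (∑ j, F (x * b j)) ^ 2 := hcs
      _ ≤ (∑ x, F x ^ 2) * ((lam * d) ^ 2 * ∑ x, F x ^ 2) := by
          exact mul_le_mul_of_nonneg_left hE' hFnn
      _ = (lam * d * ∑ x, F x ^ 2) ^ 2 := by ring
  have hle : ∑ x, F x * ∑ j, F (x * b j) ≤ lam * d * ∑ x, F x ^ 2 := by
    have hnn : 0 ≤ lam * d * ∑ x, F x ^ 2 := by positivity
    exact (le_abs_self _).trans (abs_le_of_sq_le_sq hsq hnn)
  rw [hcross, hF2] at hle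
  have hexp : lam * d * (∑ x, A x ^ 2 - s ^ 2 / N) =
      lam * d * ∑ x, A x ^ 2 - lam * d * (s ^ 2 / N) := by ring
  rw [hexp] at hle
  have hgoal : (1 - lam) * d * (s ^ 2 / N) = d * (s ^ 2 / N) - lam * d * (s ^ 2 / N) := by ring
  rw [hgoal]
  linarith

/-- step B -/
lemma stepB {G : Type} [Group G] [Fintype G] {d : ℕ} (b : Fin d → G) (lam : ℝ) (h0 : 0 ≤ lam)
    (hE : Helper835_LTC.Exp1 lam b) {n : ℕ} (f : G → Fin n) :
    (1 - lam) * d * ∑ x : G, ∑ y : G, (if f x = f y then (0 : ℝ) else 1) ≤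
      Fintype.card G * ∑ x : G, ∑ j : Fin d, (if f x = f (x * b j) then (0 : ℝ) else 1) := by
  have hN : (0 : ℝ) < Fintype.card G := by exact_mod_cast Fintype.card_pos
  let A : Fin n → G → ℝ := fun c x => if f x = c then 1 else 0
  have hAA : ∀ x y, ∑ c, A c x * A c y = if f x = f y then (1 : ℝ) else 0 := by
    intro x y
    simp only [A, ite_mul, one_mul, zero_mul]
    rw [Finset.sum_ite_eq, if_pos (Finset.mem_univ _)]
    by_cases h : f x = f y
    · rw [if_pos h, if_pos h.symm]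
    · rw [if_neg h, if_neg (fun h' => h h'.symm)]
  have hsum := Finset.sum_le_sum (s := (Finset.univ : Finset (Fin n)))
    (fun c _ => quad b lam h0 hE (A c))
  have h1 : ∑ c, ∑ x : G, ∑ j : Fin d, A c x * A c (x * b j) =
      ∑ x : G, ∑ j : Fin d, (if f x = f (x * b j) then (1 : ℝ) else 0) := by
    rw [Finset.sum_comm]
    apply Finset.sum_congr rfl
    intro x _
    rw [Finset.sum_comm]
    exact Finset.sum_congr rfl (fun j _ => hAA _ _)
  have h2 : ∑ c, ∑ x, A c x ^ 2 = (Fintype.card G : ℝ) := by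
    rw [Finset.sum_comm]
    have : ∀ x, ∑ c, A c x ^ 2 = 1 := by
      intro x
      have := hAA x x
      simp only [if_true] at this
      rw [← this]
      exact Finset.sum_congr rfl (fun c _ => by ring)
    rw [Finset.sum_congr rfl (fun x _ => this x)]
    simp
  have h3 : ∑ c, (∑ x, A c x) ^ 2 = ∑ x : G, ∑ y : G, (if f x = f y then (1 : ℝ) else 0) := by
    have : ∀ c, (∑ x, A c x) ^ 2 = ∑ x, ∑ y, A c x * A c y := by
      intro c
      rw [sq, Finset.sum_mul_sum]
    rw [Finset.sum_congr rfl (fun c _ => this c), Finset.sum_comm]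
    apply Finset.sum_congr rfl
    intro x _
    rw [Finset.sum_comm]
    exact Finset.sum_congr rfl (fun y _ => hAA _ _)
  rw [h1, Finset.sum_add_distrib, ← Finset.mul_sum, ← Finset.mul_sum, h2, ← Finset.sum_div, h3]
    at hsum
  have hc : ∀ (p : Prop) [Decidable p], (if p then (1 : ℝ) else 0) = 1 - if p then 0 else 1 := by
    intro p _
    by_cases h : p <;> simp [h]
  have e1 : ∑ x : G, ∑ j : Fin d, (if f x = f (x * b j) then (1 : ℝ) else 0) =
      Fintype.card G * d - ∑ x : G, ∑ j : Fin d, (if f x = f (x * b j) then (0 : ℝ) else 1) := by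
    simp only [hc, Finset.sum_sub_distrib, Finset.sum_const, Finset.card_univ, nsmul_eq_mul,
      Fintype.card_fin, mul_one]
  have e2 : ∑ x : G, ∑ y : G, (if f x = f y then (1 : ℝ) else 0) =
      Fintype.card G * Fintype.card G - ∑ x : G, ∑ y : G, (if f x = f y then (0 : ℝ) else 1) := by
    simp only [hc, Finset.sum_sub_distrib, Finset.sum_const, Finset.card_univ, nsmul_eq_mul, mul_one]
  rw [e1, e2] at hsum
  set N : ℝ := (Fintype.card G : ℝ) with hNdef
  set E := ∑ x : G, ∑ j : Fin d, (if f x = f (x * b j) then (0 : ℝ) else 1) with hEd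
  set D := ∑ x : G, ∑ y : G, (if f x = f y then (0 : ℝ) else 1) with hDd
  have h4 : (N * N - D) / N = N - D / N := by
    field_simp
  rw [h4] at hsum
  have h5 : (1 - lam) * d * (D / N) ≤ E := by nlinarith
  have h6 : N * ((1 - lam) * d * (D / N)) ≤ N * E := mul_le_mul_of_nonneg_left h5 hN.le
  calc (1 - lam) * d * D = N * ((1 - lam) * d * (D / N)) := by field_simp
    _ ≤ N * E := h6

/-- step C -/
lemma stepC {G : Type} [Group G] [Fintype G] {d : ℕ} (b : Fin d → G) (lam : ℝ) (h0 : 0 ≤ lam)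
    (hE : Helper835_LTC.Exp1 lam b) {n : ℕ} (β : G → Equiv.Perm (Fin n)) :
    (1 - lam) * d * ∑ x : G, ∑ y : G, dh (β x) (β y) ≤
      Fintype.card G * ∑ x : G, ∑ j : Fin d, dh (β x) (β (x * b j)) := by
  have h1 : ∑ x : G, ∑ y : G, dh (β x) (β y) =
      (∑ i : Fin n, ∑ x : G, ∑ y : G, (if β x i = β y i then (0 : ℝ) else 1)) / n := by
    simp only [dh_eq, ← Finset.sum_div]
    congr 1
    rw [Finset.sum_comm (s := (Finset.univ : Finset (Fin n)))]
    apply Finset.sum_congr rfl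
    intro x _
    rw [Finset.sum_comm]
  have h2 : ∑ x : G, ∑ j : Fin d, dh (β x) (β (x * b j)) =
      (∑ i : Fin n, ∑ x : G, ∑ j : Fin d, (if β x i = β (x * b j) i then (0 : ℝ) else 1)) / n := by
    simp only [dh_eq, ← Finset.sum_div]
    congr 1
    rw [Finset.sum_comm (s := (Finset.univ : Finset (Fin n)))]
    apply Finset.sum_congr rfl
    intro x _
    rw [Finset.sum_comm]
  rw [h1, h2, mul_div_assoc', mul_div_assoc', Finset.mul_sum, Finset.mul_sum]
  apply div_le_div_of_nonneg_right _ (Nat.cast_nonneg n)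
  apply Finset.sum_le_sum
  intro i _
  exact stepB b lam h0 hE (fun x => β x i)

theorem job : S_ZERO := by
  intro G _ _ d b lam hd h0 h1 hE n β
  have hN : (0 : ℝ) < Fintype.card G := by exact_mod_cast Fintype.card_pos
  have hdR : (1 : ℝ) ≤ d := by exact_mod_cast hd
  have hC := stepC b lam h0 hE β
  set S := ∑ x : G, ∑ j : Fin d, dh (β x) (β (x * b j)) with hS
  obtain ⟨y, hy⟩ : ∃ y : G, Fintype.card G * ∑ x, dh (β x) (β y) ≤
      ∑ x : G, ∑ y : G, dh (β x) (β y) := by
    rw [Finset.sum_comm]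
    by_contra hcon
    push Not at hcon
    have := Finset.sum_lt_sum_of_nonempty (s := (Finset.univ : Finset G)) ⟨1, Finset.mem_univ _⟩
      (fun y _ => hcon y)
    rw [← Finset.mul_sum, Finset.sum_const, Finset.card_univ, nsmul_eq_mul] at this
    exact lt_irrefl _ this
  refine ⟨β y, ?_⟩
  rw [stepA]
  have hcard : (Fintype.card (Ed G d) : ℝ) = Fintype.card G * d + Fintype.card G := by
    rw [Fintype.card_sum, Fintype.card_prod, Fintype.card_fin]
    push_cast
    rfl
  rw [hcard, ← hS]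
  set N : ℝ := (Fintype.card G : ℝ) with hNdef
  set T := ∑ x, dh (β x) (β y) with hT
  have hT0 : 0 ≤ T := Finset.sum_nonneg (fun x _ => dh_nonneg _ _)
  have h1' : 0 ≤ 1 - lam := by linarith
  have h2 : N * ((1 - lam) * d * T) ≤ N * S := by
    calc N * ((1 - lam) * d * T) = (1 - lam) * d * (N * T) := by ring
      _ ≤ (1 - lam) * d * ∑ x : G, ∑ y : G, dh (β x) (β y) := by
          apply mul_le_mul_of_nonneg_left hy
          positivity
      _ ≤ N * S := hC
  have h3 : (1 - lam) * d * T ≤ S := le_of_mul_le_mul_left h2 hN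
  have h4 : (1 - lam) / 2 * (T / N) = ((1 - lam) * T) / (2 * N) := by
    field_simp
  have h5 : 2 * S / (2 * (N * d + N)) = S / (N * d + N) := by
    rw [mul_div_mul_left _ _ two_ne_zero]
  rw [h4, h5, div_le_div_iff₀ (by positivity) (by positivity)]
  have h6 : 0 ≤ (1 - lam) * T := by positivity
  have h7 : (1 - lam) * T * (N * d + N) ≤ (1 - lam) * T * (2 * (N * d)) := by
    apply mul_le_mul_of_nonneg_left _ h6
    nlinarith
  calc (1 - lam) * T * (N * d + N) ≤ (1 - lam) * T * (2 * (N * d)) := h7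
    _ = ((1 - lam) * d * T) * (2 * N) := by ring
    _ ≤ S * (2 * N) := by
        apply mul_le_mul_of_nonneg_right h3
        positivity

end Pool.Agent.Helper835_PCX.J_ZERO
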