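import Mathlib
import Pool.Agent.Helper835_PCX.J_CLOSED
import Pool.Agent.Helper835_PCX.J_RED
import Pool.Agent.Helper835_PCX.J_COVER
import Pool.Agent.Helper835_PCX.J_WORDS
import Pool.Agent.Helper835_PCX.J_CONN
import Pool.Agent.Helper835_PCX.J_CONE
import Pool.Agent.Helper835_PCX.J_ZERO
import Pool.Agent.Helper835_PCX.J_UNIF
import Pool.Agent.Helper835_PCX.J_H1
import Pool.Agent.Helper835_PCX.J_H0
import Pool.Agent.Helper835_PCX.J_ASM
import Pool.Agent.Helper835_LTC.J_G0
import Pool.Agent.Helper835_LTC.J_GRP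
import Pool.Agent.Helper835_LTC.J_GAP

/-!
# Coboundary expanders with permutation coefficients and pairwise different polygons

The construction of `Final.lean`, with the closed words chosen separately for every polygon, so that all perimeters
are pairwise different, and with the number of vertices tending to infinity.
-/

set_option autoImplicit false

open Finset
open scoped Classical

namespace Pool.Agent.Helper835_PCX.Distinct

open Pool.Agent.Helper835_PCX J_CONE

section

variable {G : Type} [Group G] {d : ℕ}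

/-- attaching paths, with a closed word `W q` for every `q` -/
def cattd (b : Fin d → G) (u : G → List (Fin d)) (W : G × G × Fin d → List (Fin d))
    (p : (G × G × Fin d) × Fin 3) : List (Ed G d × Bool) := catt b u (W p.1) p

/-- `n` copies of a word, one after the other -/
def rep {A : Type} (n : ℕ) (W : List A) : List A := (List.replicate n W).flatten

lemma rep_succ {A : Type} (n : ℕ) (W : List A) : rep (n + 1) W = W ++ rep n W := by
  simp [rep, List.replicate_succ]

lemma rep_length {A : Type} (n : ℕ) (W : List A) : (rep n W).length = n * W.length := by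
  simp [rep]

lemma rep_prod (b : Fin d → G) (n : ℕ) (W : List (Fin d)) (h : (W.map b).prod = 1) :
    ((rep n W).map b).prod = 1 := by
  induction n with
  | zero => simp [rep]
  | succ n ih => rw [rep_succ, List.map_append, List.prod_append, h, ih, mul_one]

lemma rep_cover (b : Fin d → G) (n : ℕ) (W : List (Fin d)) (h : Cover b W) :
    Cover b (rep (n + 1) W) := by
  refine ⟨rep_prod b _ W h.1, fun g j => ?_⟩
  obtain ⟨W1, W2, hW, hp⟩ := h.2 g j
  refine ⟨W1, W2 ++ rep n W, ?_, hp⟩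
  rw [rep_succ]
  nth_rewrite 1 [hW]
  simp

lemma pth_length (b : Fin d → G) (v : G) (w : List (Fin d)) : (pth b v w).length = 2 * w.length := by
  induction w generalizing v with
  | nil => rfl
  | cons j w ih =>
    show ((Sum.inl (v, j), true) :: (Sum.inr (v * b j), true) :: pth b (v * b j) w :
      List (Ed G d × Bool)).length = _
    simp only [List.length_cons, ih]
    ring

lemma invp_length {E : Type} (l : List (E × Bool)) : (invp l).length = l.length := by
  simp [invp]

lemma cattd_len0 (b : Fin d → G) (u : G → List (Fin d)) (W : G × G × Fin d → List (Fin d))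
    (v x : G) (j : Fin d) : (cattd b u W ((v, x, j), 0)).length =
      2 * (u (v⁻¹ * x)).length + 2 * (u (v⁻¹ * (x * b j))).length + 2 + 2 * (W (v, x, j)).length := by
  show (pth b v (u (v⁻¹ * x)) ++ (Sum.inl (x, j), true) ::
      (invp (pth b v (u (v⁻¹ * (x * b j)))) ++ Rp b (W (v, x, j)) v)).length = _
  simp only [List.length_append, List.length_cons, pth_length, invp_length, Rp]
  ring

lemma cattd_len1 (b : Fin d → G) (u : G → List (Fin d)) (W : G × G × Fin d → List (Fin d))
    (v x : G) (j : Fin d) : (cattd b u W ((v, x, j), 1)).length = 1 + 2 * (W (v, x, j)).length := by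
  show (Rp b (W (v, x, j)) v).length = _
  simp only [List.length_cons, pth_length, Rp]
  ring

lemma cattd_len2 (b : Fin d → G) (u : G → List (Fin d)) (W : G × G × Fin d → List (Fin d))
    (v x : G) (j : Fin d) : (cattd b u W ((v, x, j), 2)).length = 2 + 2 * (W (v, x, j)).length := by
  show ((Sum.inr v, true) :: Rp b (W (v, x, j)) v).length = _
  simp only [List.length_cons, pth_length, Rp]
  ring

/-- all perimeters are different -/
lemma cattd_inj [Fintype G] (b : Fin d → G) (u : G → List (Fin d)) (W : G × G × Fin d → List (Fin d))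
    (M L : ℕ) (hL : 2 * M + 3 ≤ L) (hu1 : ∀ g, 1 ≤ (u g).length) (hu2 : ∀ g, (u g).length ≤ M)
    (i : G × G × Fin d → ℕ) (hi : Function.Injective i) (hW : ∀ q, (W q).length = (i q + 1) * L) :
    Function.Injective fun p => (cattd b u W p).length := by
  have key : ∀ p : (G × G × Fin d) × Fin 3, ∃ o : ℕ, (cattd b u W p).length = o + (2 * L) * (i p.1 + 1) ∧
      o < 2 * L ∧ ((p.2 = 0 ∧ 6 ≤ o) ∨ (p.2 = 1 ∧ o = 1) ∨ (p.2 = 2 ∧ o = 2)) := by
    rintro ⟨⟨v, x, j⟩, t⟩
    fin_cases t
    · refine ⟨2 * (u (v⁻¹ * x)).length + 2 * (u (v⁻¹ * (x * b j))).length + 2, ?_, ?_, Or.inl ⟨rfl, ?_⟩⟩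
      · refine (cattd_len0 b u W v x j).trans ?_
        rw [hW]
        ring
      · have h1 := hu2 (v⁻¹ * x)
        have h2 := hu2 (v⁻¹ * (x * b j))
        omega
      · have h1 := hu1 (v⁻¹ * x)
        have h2 := hu1 (v⁻¹ * (x * b j))
        omega
    · refine ⟨1, ?_, by omega, Or.inr (Or.inl ⟨rfl, rfl⟩)⟩
      refine (cattd_len1 b u W v x j).trans ?_
      rw [hW]
      ring
    · refine ⟨2, ?_, by omega, Or.inr (Or.inr ⟨rfl, rfl⟩)⟩
      refine (cattd_len2 b u W v x j).trans ?_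
      rw [hW]
      ring
  intro p p' h
  obtain ⟨o, ho1, ho2, ho3⟩ := key p
  obtain ⟨o', ho1', ho2', ho3'⟩ := key p'
  have h' : (cattd b u W p).length = (cattd b u W p').length := h
  rw [ho1, ho1'] at h'
  have e1 : o = o' := by
    have := congrArg (fun z => z % (2 * L)) h'
    simp only [Nat.add_mul_mod_self_left, Nat.mod_eq_of_lt ho2, Nat.mod_eq_of_lt ho2'] at this
    exact this
  have e2 : i p.1 = i p'.1 := by
    rw [e1] at h'
    have h3 := Nat.add_left_cancel h'
    have h4 := Nat.eq_of_mul_eq_mul_left (by omega : 0 < 2 * L) h3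
    omega
  have e3 : p.1 = p'.1 := hi e2
  have e4 : p.2 = p'.2 := by
    rcases ho3 with ⟨a1, a2⟩ | ⟨a1, a2⟩ | ⟨a1, a2⟩ <;> rcases ho3' with ⟨c1, c2⟩ | ⟨c1, c2⟩ | ⟨c1, c2⟩ <;>
      first | exact a1.trans c1.symm | (exfalso; omega)
  exact Prod.ext e3 e4

/-- cone inequality -/
lemma cone [Fintype G] (b : Fin d → G) (u : G → List (Fin d)) (W : G × G × Fin d → List (Fin d))
    (hd : 0 < d) (n : ℕ) (α : Ed G d × Bool → Equiv.Perm (Fin n)) (hα : ∀ a, α (orev a) = (α a)⁻¹) :
    ∃ β : G → Equiv.Perm (Fin n),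
    (∑ a : Ed G d × Bool, dh (α a) ((β (osrc csrc (ctgt b) a))⁻¹ * β (otgt csrc (ctgt b) a))) /
        (2 * Fintype.card (Ed G d)) ≤
      6 * ((∑ p, dh ((cattd b u W p).map α).prod 1) / Fintype.card ((G × G × Fin d) × Fin 3)) := by
  obtain ⟨N, hN⟩ : ∃ N : ℝ, N = Fintype.card G := ⟨_, rfl⟩
  have hN0 : 0 < N := by rw [hN]; exact_mod_cast Fintype.card_pos
  have hd1 : (1 : ℝ) ≤ d := by exact_mod_cast hd
  have hd0 : (0 : ℝ) < d := by linarith
  obtain ⟨SA, hSA⟩ : ∃ SA : ℝ, SA = ∑ v : G, ∑ x : G, ∑ j : Fin d,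
    dh ((cattd b u W ((v, x, j), 0)).map α).prod 1 := ⟨_, rfl⟩
  obtain ⟨SR, hSR⟩ : ∃ SR : ℝ, SR = ∑ v : G, ∑ x : G, ∑ j : Fin d,
    dh (RR b (W (v, x, j)) α v) 1 := ⟨_, rfl⟩
  obtain ⟨SC, hSC⟩ : ∃ SC : ℝ, SC = ∑ v : G, ∑ x : G, ∑ j : Fin d,
    dh (α (Sum.inr v, true) * RR b (W (v, x, j)) α v) 1 := ⟨_, rfl⟩
  obtain ⟨SL, hSL⟩ : ∃ SL : ℝ, SL = ∑ x : G, dh (α (Sum.inr x, true)) 1 := ⟨_, rfl⟩
  have hSA0 : 0 ≤ SA := by
    rw [hSA]
    exact sum_nonneg fun _ _ => sum_nonneg fun _ _ => sum_nonneg fun _ _ => dh_nonneg _ _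
  have hSR0 : 0 ≤ SR := by
    rw [hSR]
    exact sum_nonneg fun _ _ => sum_nonneg fun _ _ => sum_nonneg fun _ _ => dh_nonneg _ _
  have hSC0 : 0 ≤ SC := by
    rw [hSC]
    exact sum_nonneg fun _ _ => sum_nonneg fun _ _ => sum_nonneg fun _ _ => dh_nonneg _ _
  have hL : N * d * SL ≤ SC + SR := by
    rw [hSL, hSC, hSR, mul_sum, ← sum_add_distrib]
    refine sum_le_sum fun v _ => ?_
    have e1 : N * d * dh (α (Sum.inr v, true)) 1 = ∑ _x : G, ∑ _j : Fin d, dh (α (Sum.inr v, true)) 1 := by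
      simp only [sum_const, card_univ, Fintype.card_fin, nsmul_eq_mul]
      rw [hN]
      ring
    rw [e1, ← sum_add_distrib]
    refine sum_le_sum fun x _ => ?_
    rw [← sum_add_distrib]
    exact sum_le_sum fun j _ => loop_le _ _
  have hP : (∑ p, dh ((cattd b u W p).map α).prod 1) = SA + SR + SC := by
    rw [Fintype.sum_prod_type]
    simp only [Fin.sum_univ_three]
    rw [sum_add_distrib, sum_add_distrib]
    congr 1
    · congr 1
      · rw [hSA, Fintype.sum_prod_type]
        refine sum_congr rfl fun v _ => ?_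
        rw [Fintype.sum_prod_type]
      · rw [hSR, Fintype.sum_prod_type]
        refine sum_congr rfl fun v _ => ?_
        rw [Fintype.sum_prod_type]
        rfl
    · rw [hSC, Fintype.sum_prod_type]
      refine sum_congr rfl fun v _ => ?_
      rw [Fintype.sum_prod_type]
      refine sum_congr rfl fun x _ => sum_congr rfl fun j _ => ?_
      show dh ((catt b u (W (v, x, j)) ((v, x, j), 2)).map α).prod 1 = _
      rw [catt2]
  have hcE : (Fintype.card (Ed G d) : ℝ) = N * d + N := by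
    rw [hN]
    simp [Fintype.card_sum, Fintype.card_prod]
  have hcI : (Fintype.card ((G × G × Fin d) × Fin 3) : ℝ) = N * (N * d) * 3 := by
    rw [hN]
    simp [Fintype.card_prod]
  rw [hP, hcE, hcI]
  have hlhs : ∀ v : G, ∑ a : Ed G d × Bool, dh (α a) ((bet b u α v (osrc csrc (ctgt b) a))⁻¹ *
        bet b u α v (otgt csrc (ctgt b) a)) ≤
      2 * (∑ x : G, ∑ j : Fin d, (dh ((cattd b u W ((v, x, j), 0)).map α).prod 1 +
        dh (RR b (W (v, x, j)) α v) 1)) + 2 * SL := by
    intro v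
    rw [Fintype.sum_prod_type, Fintype.sum_sum_type, Fintype.sum_prod_type]
    simp only [Fintype.sum_bool]
    rw [mul_sum, hSL, mul_sum]
    refine add_le_add (sum_le_sum fun x _ => ?_) (sum_le_sum fun x _ => ?_)
    · rw [mul_sum]
      refine sum_le_sum fun j _ => ?_
      have h0 : ((cattd b u W ((v, x, j), 0)).map α).prod = _ := catt0 b u (W (v, x, j)) α hα v x j
      rw [h0]
      have h1 : α (Sum.inl (x, j), false) = (α (Sum.inl (x, j), true))⁻¹ := hα (Sum.inl (x, j), true)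
      have h2 : osrc csrc (ctgt b) ((Sum.inl (x, j), true) : Ed G d × Bool) = x := rfl
      have h3 : otgt csrc (ctgt b) ((Sum.inl (x, j), true) : Ed G d × Bool) = x * b j := rfl
      have h4 : osrc csrc (ctgt b) ((Sum.inl (x, j), false) : Ed G d × Bool) = x * b j := rfl
      have h5 : otgt csrc (ctgt b) ((Sum.inl (x, j), false) : Ed G d × Bool) = x := rfl
      rw [h1, h2, h3, h4, h5, edge_rev]
      have := edge_le (α (Sum.inl (x, j), true)) (bet b u α v x) (bet b u α v (x * b j))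
        (RR b (W (v, x, j)) α v)
      linarith
    · have h1 : α (Sum.inr x, false) = (α (Sum.inr x, true))⁻¹ := hα (Sum.inr x, true)
      have h2 : osrc csrc (ctgt b) ((Sum.inr x, true) : Ed G d × Bool) = x := rfl
      have h3 : otgt csrc (ctgt b) ((Sum.inr x, true) : Ed G d × Bool) = x := rfl
      have h4 : osrc csrc (ctgt b) ((Sum.inr x, false) : Ed G d × Bool) = x := rfl
      have h5 : otgt csrc (ctgt b) ((Sum.inr x, false) : Ed G d × Bool) = x := rfl
      rw [h1, h2, h3, h4, h5, inv_mul_cancel, dh_inv_one]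
      linarith
  have hex : ∃ v ∈ (univ : Finset G), (∑ a : Ed G d × Bool, dh (α a)
      ((bet b u α v (osrc csrc (ctgt b) a))⁻¹ * bet b u α v (otgt csrc (ctgt b) a))) /
        (2 * (N * d + N)) ≤ 6 * ((SA + SR + SC) / (N * (N * d) * 3)) := by
    apply Finset.exists_le_of_sum_le univ_nonempty
    rw [← sum_div, sum_const, card_univ, nsmul_eq_mul, ← hN]
    have h1 : (∑ v : G, ∑ a : Ed G d × Bool, dh (α a)
      ((bet b u α v (osrc csrc (ctgt b) a))⁻¹ * bet b u α v (otgt csrc (ctgt b) a))) ≤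
        2 * (SA + SR) + 2 * (N * SL) := by
      refine (sum_le_sum fun v _ => hlhs v).trans ?_
      rw [sum_add_distrib, ← mul_sum]
      refine add_le_add (mul_le_mul_of_nonneg_left (le_of_eq ?_) (by norm_num)) (le_of_eq ?_)
      · simp only [sum_add_distrib]
        rw [hSA, hSR]
      · rw [sum_const, card_univ, nsmul_eq_mul, ← hN]
        ring
    have hD : 0 < N * d := by positivity
    have hSL0 : 0 ≤ SL := by
      rw [hSL]
      exact sum_nonneg fun _ _ => dh_nonneg _ _
    have h2 : 2 * (SA + SR) + 2 * (N * SL) ≤ 4 * (SA + SR + SC) := by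
      have h3 : N * SL ≤ N * d * SL :=
        mul_le_mul_of_nonneg_right (le_mul_of_one_le_right hN0.le hd1) hSL0
      nlinarith
    calc (∑ v : G, ∑ a : Ed G d × Bool, dh (α a)
      ((bet b u α v (osrc csrc (ctgt b) a))⁻¹ * bet b u α v (otgt csrc (ctgt b) a))) / (2 * (N * d + N))
        ≤ 4 * (SA + SR + SC) / (2 * (N * d + N)) :=
          div_le_div_of_nonneg_right (h1.trans h2) (by positivity)
      _ ≤ 4 * (SA + SR + SC) / (2 * (N * d)) :=
          div_le_div_of_nonneg_left (by positivity) (by positivity) (by linarith)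
      _ = _ := by
          field_simp
          ring
  obtain ⟨v, -, hv⟩ := hex
  exact ⟨bet b u α v, hv⟩

lemma cattd_ne (b : Fin d → G) (u : G → List (Fin d)) (W : G × G × Fin d → List (Fin d))
    (p : (G × G × Fin d) × Fin 3) : cattd b u W p ≠ [] := J_ASM.asm_ne b u (W p.1) p

/-- the complex -/
def cx [Fintype G] (b : Fin d → G) (u : G → List (Fin d)) (W : G × G × Fin d → List (Fin d))
    (hu : Words b u) (hW : ∀ q, Cover b (W q)) : PolyCx where
  V := G
  E := Ed G d
  P := (G × G × Fin d) × Fin 3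
  fV := inferInstance
  fE := inferInstance
  fP := inferInstance
  src := csrc
  tgt := ctgt b
  att := cattd b u W
  att_ne := cattd_ne b u W
  att_closed := fun p => J_CLOSED.job G d b u (W p.1) hu (hW p.1) p
  att_red := fun p => J_RED.job G d b u (W p.1) p

end

/-- the final statement: in addition the number of vertices is strictly increasing, in each complex the
polygons have pairwise different perimeters, and `μ₁` and `μ₀` are uniform -/
def S_MAIN2 : Prop := ∃ (k : ℕ) (lam : ℝ), 0 < lam ∧ ∃ X : ℕ → PolyCx,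
  (∀ m, (X m).Connected) ∧ (∀ m v, (X m).deg v ≤ k) ∧
  (StrictMono fun m => Fintype.card (X m).V) ∧
  (∀ m, Function.Injective fun p => ((X m).att p).length) ∧
  (∀ m e, (X m).mu1 e = 1 / Fintype.card (X m).E) ∧
  (∀ m v, (X m).mu0 v = 1 / Fintype.card (X m).V) ∧
  (∀ m m', m ≠ m' → ¬ (X m).Iso (X m')) ∧
  ∀ m, lam ≤ (X m).h0 ∧ lam ≤ (X m).h1

theorem final2 : S_MAIN2 := by
  obtain ⟨d, lam, hd, hl0, hl1, hG⟩ :=
    Helper835_LTC.J_G0.job Helper835_LTC.J_GRP.job Helper835_LTC.J_GAP.job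
  have hc : 0 < (1 - lam) / 2 := by linarith
  have hex : ∀ N : ℕ, ∃ X : PolyCx, X.Connected ∧ (∀ v, X.deg v ≤ 2 * d + 2) ∧
      N ≤ Fintype.card X.V ∧ (Function.Injective fun p => (X.att p).length) ∧
      ((∀ e, X.mu1 e = 1 / Fintype.card X.E) ∧ ∀ v, X.mu0 v = 1 / Fintype.card X.V) ∧
      min (1 / 6) ((1 - lam) / 2) ≤ X.h0 ∧ min (1 / 6) ((1 - lam) / 2) ≤ X.h1 := by
    intro N
    obtain ⟨G, _, _, b, hN, hE⟩ := hG (max 2 N)
    obtain ⟨u0, W0, hu0, hW0⟩ := J_WORDS.job G d b lam hd hl0 hl1 hE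
    have hW0l : 1 ≤ W0.length := by
      obtain ⟨W1, W2, h, -⟩ := hW0.2 1 ⟨0, hd⟩
      rw [h, List.length_append, List.length_cons]
      omega
    obtain ⟨u, hu, hu1⟩ : ∃ u : G → List (Fin d), Words b u ∧ ∀ g, 1 ≤ (u g).length := by
      refine ⟨fun g => u0 g ++ W0, fun g => ?_, fun g => ?_⟩
      · show ((u0 g ++ W0).map b).prod = g
        rw [List.map_append, List.prod_append, hu0 g, hW0.1, mul_one]
      · show 1 ≤ (u0 g ++ W0).length
        rw [List.length_append]
        omega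
    obtain ⟨M, hM⟩ : ∃ M : ℕ, ∀ g, (u g).length ≤ M :=
      ⟨univ.sup fun g => (u g).length, fun g => Finset.le_sup (f := fun g => (u g).length) (mem_univ g)⟩
    obtain ⟨i, hi⟩ : ∃ i : G × G × Fin d → ℕ, Function.Injective i :=
      ⟨fun q => (Fintype.equivFin (G × G × Fin d) q : ℕ),
        fun a c h => (Fintype.equivFin (G × G × Fin d)).injective (Fin.ext h)⟩
    obtain ⟨W1, hW1, hW1l⟩ : ∃ W1 : List (Fin d), Cover b W1 ∧ 2 * M + 3 ≤ W1.length := by
      refine ⟨rep (2 * M + 2 + 1) W0, rep_cover b _ W0 hW0, ?_⟩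
      rw [rep_length]
      nlinarith
    obtain ⟨W, hW, hWl⟩ : ∃ W : G × G × Fin d → List (Fin d), (∀ q, Cover b (W q)) ∧
        ∀ q, (W q).length = (i q + 1) * W1.length :=
      ⟨fun q => rep (i q + 1) W1, fun q => rep_cover b _ W1 hW1, fun q => rep_length _ _⟩
    have hU := J_UNIF.job (cx b u W hu hW) G d b
      (Equiv.refl _) (Equiv.refl _) hd ⟨((1, 1, ⟨0, hd⟩), 0)⟩ (fun _ => rfl) (fun _ => rfl)
      (fun p e => J_COVER.job G d b u (W p.1) hd (hW p.1) p e)
    refine ⟨cx b u W hu hW, ⟨⟨(1 : G)⟩, J_CONN.job G d b u hu⟩,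
      fun v => J_ASM.asm_deg b v, (le_max_right _ _).trans hN,
      cattd_inj b u W M W1.length hW1l hu1 hM i hi hWl, hU, ?_, ?_⟩
    · refine (min_le_right _ _).trans ?_
      exact J_H0.job (cx b u W hu hW) _ hc hU.1 hU.2
        ((le_max_left _ _).trans hN) (J_ZERO.job G d b lam hd hl0 hl1 hE)
    · refine (min_le_left _ _).trans ?_
      exact J_H1.job (cx b u W hu hW) 6 (by norm_num)
        ⟨((1, 1, ⟨0, hd⟩), 0)⟩ hU.1 ⟨Sum.inr 1, rfl⟩ (fun n α hα => cone b u W hd n α hα)
  choose F hF1 hF2 hF3 hF6 hF7 hF4 hF5 using hex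
  obtain ⟨X, hX0, hXs⟩ : ∃ X : ℕ → PolyCx, X 0 = F 0 ∧
      ∀ m, X (m + 1) = F (Fintype.card (X m).V + 1) :=
    ⟨fun m => Nat.rec (F 0) (fun _ Y => F (Fintype.card Y.V + 1)) m, rfl, fun _ => rfl⟩
  have hXF : ∀ m, ∃ N, X m = F N := by
    intro m
    cases m with
    | zero => exact ⟨0, hX0⟩
    | succ m => exact ⟨_, hXs m⟩
  have hmono : StrictMono fun m => Fintype.card (X m).V := by
    refine strictMono_nat_of_lt_succ fun m => ?_
    show Fintype.card (X m).V < Fintype.card (X (m + 1)).V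
    rw [hXs m]
    exact hF3 (Fintype.card (X m).V + 1)
  refine ⟨2 * d + 2, min (1 / 6) ((1 - lam) / 2), lt_min (by norm_num) hc, X, ?_, ?_, hmono, ?_, ?_, ?_,
    ?_, ?_⟩
  · intro m
    obtain ⟨N, hN⟩ := hXF m
    rw [hN]
    exact hF1 N
  · intro m
    obtain ⟨N, hN⟩ := hXF m
    rw [hN]
    exact hF2 N
  · intro m
    obtain ⟨N, hN⟩ := hXF m
    rw [hN]
    exact hF6 N
  · intro m
    obtain ⟨N, hN⟩ := hXF m
    rw [hN]
    exact (hF7 N).1
  · intro m
    obtain ⟨N, hN⟩ := hXF m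
    rw [hN]
    exact (hF7 N).2
  · rintro m m' hmm ⟨fv, -⟩
    exact hmm (hmono.injective (Fintype.card_congr fv))
  · intro m
    obtain ⟨N, hN⟩ := hXF m
    rw [hN]
    exact ⟨hF4 N, hF5 N⟩

end Pool.Agent.Helper835_PCX.Distinct
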