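import Mathlib
import Pool.Agent.Helper835_PCX.J_CLOSED
import Pool.Agent.Helper835_PCX.J_RED
import Pool.Agent.Helper835_PCX.J_COVER
import Pool.Agent.Helper835_PCX.J_WORDS
import Pool.Agent.Helper835_PCX.J_CONN
import Pool.Agent.Helper835_PCX.J_CONE
import Pool.Agent.Helper835_PCX.J_ZERO
import Pool.Agent.Helper835_PCX.J_UNIF
import Pool.Agent.Helper835_PCX.J_H1
import Pool.Agent.Helper835_PCX.J_H0
import Pool.Agent.Helper835_PCX.J_ASM
import Pool.Agent.Helper835_LTC.J_G0
import Pool.Agent.Helper835_LTC.J_GRP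
import Pool.Agent.Helper835_LTC.J_GAP

/-!
# Assembly: bounded degree coboundary expanders with permutation coefficients
-/

set_option autoImplicit false

namespace Pool.Agent.Helper835_PCX

theorem final : S_MAIN :=
  J_ASM.job J_CLOSED.job J_RED.job J_COVER.job J_WORDS.job J_CONE.job J_ZERO.job J_UNIF.job
    J_CONN.job J_H1.job J_H0.job
    (Helper835_LTC.J_G0.job Helper835_LTC.J_GRP.job Helper835_LTC.J_GAP.job)

end Pool.Agent.Helper835_PCX
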